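import Mathlib

set_option autoImplicit false

/-!
Odd Dirichlet characters.
-/

namespace Pool.Agent.Mukai.RQ

/-- there are odd Dirichlet characters modulo every `M ≥ 3` -/
lemma exists_odd {M : ℕ} (hM : 2 < M) : ∃ ψ : DirichletCharacter ℂ M, ψ.Odd := by
  have : NeZero M := ⟨by omega⟩
  have : Fact (2 < M) := ⟨hM⟩
  have h : (-1 : ZMod M) ≠ 1 := ZMod.neg_one_ne_one
  obtain ⟨ψ, hψ⟩ := DirichletCharacter.exists_apply_ne_one_of_hasEnoughRootsOfUnity ℂ h
  exact ⟨ψ, ψ.even_or_odd.resolve_left hψ⟩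

end Pool.Agent.Mukai.RQ
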