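import Pool.Agent.Work.MP_1e087a_ag.Q.Link

set_option autoImplicit false

/-!
A primitive form takes a value prime to a given number.
-/

namespace Pool.Agent.Mukai.RQ

/-- a primitive form takes a value prime to `m` -/
lemma exists_coprime_value {n B C : ℤ} (hprim : ∀ k : ℤ, k ∣ n → k ∣ B → k ∣ C → IsUnit k) {m : ℕ}
    (hm : m ≠ 0) : ∃ u w : ℤ, IsCoprime (qq n B C u w) (m : ℤ) := by
  classical
  set P := m.primeFactors with hP
  set A := P.filter fun p : ℕ => ¬ (p : ℤ) ∣ n with hA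
  set E := P.filter fun p : ℕ => (p : ℤ) ∣ n ∧ ¬ (p : ℤ) ∣ C with hE
  have hpr : ∀ p ∈ P, p.Prime := fun p hp => Nat.prime_of_mem_primeFactors hp
  refine ⟨((∏ p ∈ E, p : ℕ) : ℤ), ((∏ p ∈ A, p : ℕ) : ℤ), ?_⟩
  rw [Int.isCoprime_iff_gcd_eq_one]
  by_contra hg
  obtain ⟨p, hp, hpg⟩ := Nat.exists_prime_and_dvd hg
  have hpZ : Prime (p : ℤ) := Nat.prime_iff_prime_int.1 hp
  have h1 : (p : ℤ) ∣ qq n B C ((∏ p ∈ E, p : ℕ) : ℤ) ((∏ p ∈ A, p : ℕ) : ℤ) :=
    (Int.natCast_dvd_natCast.2 hpg).trans (Int.gcd_dvd_left ..)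
  have h2 : (p : ℤ) ∣ (m : ℤ) := (Int.natCast_dvd_natCast.2 hpg).trans (Int.gcd_dvd_right ..)
  have h3 : p ∈ P := Nat.mem_primeFactors.2 ⟨hp, Int.natCast_dvd_natCast.1 h2, hm⟩
  -- divisibility of the products
  have key : ∀ S : Finset ℕ, S ⊆ P → ((p : ℤ) ∣ ((∏ p ∈ S, p : ℕ) : ℤ) ↔ p ∈ S) := by
    intro S hS
    rw [Int.natCast_dvd_natCast]
    constructor
    · intro h
      obtain ⟨q, hq, hpq⟩ := (Nat.Prime.prime hp).exists_mem_finset_dvd h
      rw [(Nat.prime_dvd_prime_iff_eq hp (hpr q (hS hq))).1 hpq]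
      exact hq
    · intro h
      exact Finset.dvd_prod_of_mem _ h
  have kA := key A (Finset.filter_subset _ _)
  have kE := key E (Finset.filter_subset _ _)
  generalize ((∏ p ∈ E, p : ℕ) : ℤ) = u at h1 kE
  generalize ((∏ p ∈ A, p : ℕ) : ℤ) = w at h1 kA
  unfold qq at h1
  by_cases hn : (p : ℤ) ∣ n
  · have hpA : ¬ (p : ℤ) ∣ w := by
      rw [kA, hA, Finset.mem_filter]
      exact fun h => h.2 hn
    by_cases hC : (p : ℤ) ∣ C
    · have hpE : ¬ (p : ℤ) ∣ u := by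
        rw [kE, hE, Finset.mem_filter]
        exact fun h => h.2.2 hC
      have hB : (p : ℤ) ∣ B * (u * w) := by
        have h4 : B * (u * w) = (n * u ^ 2 + B * (u * w) + C * w ^ 2) - n * u ^ 2 - C * w ^ 2 := by
          ring
        rw [h4]
        exact dvd_sub (dvd_sub h1 (dvd_mul_of_dvd_left hn _)) (dvd_mul_of_dvd_left hC _)
      rcases hpZ.dvd_or_dvd hB with h5 | h5
      · exact hpZ.not_isUnit (hprim _ hn h5 hC)
      · rcases hpZ.dvd_or_dvd h5 with h6 | h6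
        · exact hpE h6
        · exact hpA h6
    · have hpE : (p : ℤ) ∣ u := by
        rw [kE, hE, Finset.mem_filter]
        exact ⟨h3, hn, hC⟩
      have h4 : (p : ℤ) ∣ C * w ^ 2 := by
        have h4 : C * w ^ 2 = (n * u ^ 2 + B * (u * w) + C * w ^ 2) - n * u ^ 2 - B * (u * w) := by
          ring
        rw [h4]
        exact dvd_sub (dvd_sub h1 (dvd_mul_of_dvd_left hn _))
          (dvd_mul_of_dvd_right (dvd_mul_of_dvd_left hpE _) _)
      rcases hpZ.dvd_or_dvd h4 with h5 | h5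
      · exact hC h5
      · exact hpA (hpZ.dvd_of_dvd_pow h5)
  · have hpA : (p : ℤ) ∣ w := by
      rw [kA, hA, Finset.mem_filter]
      exact ⟨h3, hn⟩
    have hpE : ¬ (p : ℤ) ∣ u := by
      rw [kE, hE, Finset.mem_filter]
      exact fun h => hn h.2.1
    have h4 : (p : ℤ) ∣ n * u ^ 2 := by
      have h4 : n * u ^ 2 = (n * u ^ 2 + B * (u * w) + C * w ^ 2) - C * w ^ 2 - B * (u * w) := by
        ring
      rw [h4]
      exact dvd_sub (dvd_sub h1 (dvd_mul_of_dvd_right (dvd_pow hpA two_ne_zero) _))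
        (dvd_mul_of_dvd_right (dvd_mul_of_dvd_right hpA _) _)
    rcases hpZ.dvd_or_dvd h4 with h5 | h5
    · exact hn h5
    · exact hpE (hpZ.dvd_of_dvd_pow h5)

end Pool.Agent.Mukai.RQ
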