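import Mathlib

set_option autoImplicit false

/-!
Ring classes of ideals modulo `m` in the ring of integers of a number field.
-/

namespace Pool.Agent.Mukai.RQ

open NumberField Ideal

variable {K : Type} [Field K] [NumberField K]

/-- `x` is congruent modulo `m` to a rational integer prime to `m`. -/
def RatMod (m : ℕ) (x : 𝓞 K) : Prop :=
  ∃ r : ℤ, IsCoprime r (m : ℤ) ∧ x - (r : 𝓞 K) ∈ span {(m : 𝓞 K)}

/-- The ideals `I` and `J` are in the same (wide) ring class modulo `m`: `α I = β J` with nonzero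
`α`, `β` congruent modulo `m` to rational integers prime to `m`. -/
def Req (m : ℕ) (I J : Ideal (𝓞 K)) : Prop :=
  ∃ α β : 𝓞 K, α ≠ 0 ∧ β ≠ 0 ∧ RatMod m α ∧ RatMod m β ∧ span {α} * I = span {β} * J

end Pool.Agent.Mukai.RQ
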