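import Pool.Agent.Work.MP_1e087a_ag.Lift

/-!
# From prime values of the form to products of reflections

If the primitive part of the form takes, for every prime `ℓ`, a prime value `± p` with `p` not
`1` modulo `ℓ` (modulo `4` for `ℓ = 2`) at a primitive vector, the isometries are products of
reflections.
-/

namespace Pool.Agent.Mukai

variable {n B C : ℤ}

theorem mE_neg {δ t ν : ℤ} (hν' : ν * ν = 1) (hN : δ * (δ + t * B) + t ^ 2 * n * C = ν)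
    (hN' : -δ * (-δ + -t * B) + (-t) ^ 2 * n * C = ν) :
    mE n B C (-δ) (-t) ν hν' hN' = mE n B C δ t ν hν' hN := by
  apply LinearEquiv.ext
  intro x
  rw [mE_apply, mE_apply]
  obtain ⟨x1, x2, x3, x4⟩ := x
  simp only [Em]
  ext
  · rfl
  · rfl
  · simp only [Prod.smul_fst, smul_eq_mul]
    ring
  · simp only [Prod.smul_snd, smul_eq_mul]
    ring

/-- the case `δ = ± 1` modulo `n` -/
theorem mE_pm {δ t ν : ℤ} (hn : n ≠ 0) (hν : ν = 1 ∨ ν = -1) (hν' : ν * ν = 1)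
    (hN : δ * (δ + t * B) + t ^ 2 * n * C = ν) (hδ : n ∣ δ - 1 ∨ n ∣ δ + 1) :
    mE n B C δ t ν hν' hN ∈ W n B C := by
  by_cases ht : t = 0
  · subst ht
    have h1 : δ ^ 2 = ν := by linear_combination hN
    have h2 : ν = 1 := by
      rcases hν with h | h
      · exact h
      · rw [h] at h1
        nlinarith [sq_nonneg δ]
    have h3 : mE n B C δ 0 ν hν' hN = 1 := by
      apply LinearEquiv.ext
      intro x
      rw [mE_apply]
      have h4 : δ * δ = 1 := by rw [← h2, ← h1]; ring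
      obtain ⟨x1, x2, x3, x4⟩ := x
      rw [h2]
      ext
      · simp
      · simp
      · simp [Em]
        rw [← mul_assoc, h4, one_mul]
      · simp [Em]
        rw [← mul_assoc, h4, one_mul]
    rw [h3]
    exact one_mem _
  · rcases hδ with ⟨c, hc⟩ | ⟨c, hc⟩
    · exact mE_one hn hν hν' hN (k := c) (by linarith) ht
    · have hN' : -δ * (-δ + -t * B) + (-t) ^ 2 * n * C = ν := by linear_combination hN
      rw [← mE_neg hν' hN hN']
      exact mE_one hn hν hν' hN' (k := -c) (by linear_combination -hc) (neg_ne_zero.2 ht)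

/-- powers -/
theorem mE_pow_pm {δ t ν : ℤ} (hn : n ≠ 0) (hν : ν = 1 ∨ ν = -1) (hν' : ν * ν = 1)
    (hN : δ * (δ + t * B) + t ^ 2 * n * C = ν) {j : ℕ} (hδ : n ∣ δ ^ j - 1 ∨ n ∣ δ ^ j + 1) :
    mE n B C δ t ν hν' hN ^ j ∈ W n B C := by
  have hk' : ν ^ j * ν ^ j = 1 := by rw [← mul_pow, hν', one_pow]
  rw [mE_pow hν' hN j hk']
  obtain ⟨c', hc'⟩ := pw_mod (n := n) (B := B) (C := C) δ t j
  refine mE_pm hn (pow_pm hν j) hk' (pw_norm hN j) ?_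
  rw [hc']
  rcases hδ with ⟨c, hc⟩ | ⟨c, hc⟩
  · exact Or.inl ⟨c + c', by linear_combination hc⟩
  · exact Or.inr ⟨c + c', by linear_combination hc⟩

/-- Euler's criterion -/
theorem euler_pm {p : ℕ} (hp : p.Prime) {δ : ℤ} (hc : IsCoprime δ (p : ℤ)) :
    (p : ℤ) ∣ δ ^ (p / 2) - 1 ∨ (p : ℤ) ∣ δ ^ (p / 2) + 1 := by
  have := Fact.mk hp
  have h0 : (δ : ZMod p) ≠ 0 := by
    intro h
    rw [ZMod.intCast_zmod_eq_zero_iff_dvd] at h
    have h1 := hc.symm.isUnit_of_dvd' (dvd_refl _) h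
    exact (Nat.prime_iff_prime_int.1 hp).not_unit h1
  rcases ZMod.pow_div_two_eq_neg_one_or_one p h0 with h | h
  · left
    rw [← ZMod.intCast_zmod_eq_zero_iff_dvd]
    push_cast
    rw [h, sub_self]
  · right
    rw [← ZMod.intCast_zmod_eq_zero_iff_dvd]
    push_cast
    rw [h, neg_add_cancel]

/-- the exponent `(p - 1) / 2`, content at most two -/
theorem expo_half {p : ℕ} (hp : p.Prime) (hp2 : p ≠ 2) {k n δ : ℤ} (hk : k.natAbs = 1 ∨
    k.natAbs = 2) (hn : n.natAbs = k.natAbs * p) (hc : IsCoprime δ n) :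
    n ∣ δ ^ (p / 2) - 1 ∨ n ∣ δ ^ (p / 2) + 1 := by
  have hpn : (p : ℤ) ∣ n := by
    rw [← Int.dvd_natAbs, hn]
    exact_mod_cast dvd_mul_left p _
  have hcp : IsCoprime δ (p : ℤ) := hc.of_isCoprime_of_dvd_right hpn
  have he := euler_pm hp hcp
  have key : ∀ x : ℤ, (k.natAbs : ℤ) ∣ x → (p : ℤ) ∣ x → n ∣ x := by
    intro x h1 h2
    rw [← Int.natAbs_dvd, hn, Nat.cast_mul]
    refine IsCoprime.mul_dvd ?_ h1 h2
    rcases hk with h | h
    · rw [h]; exact isCoprime_one_left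
    · rw [h]
      refine Nat.isCoprime_iff_coprime.2 ?_
      exact (Nat.coprime_primes Nat.prime_two hp).2 (Ne.symm hp2)
  have h2 : (k.natAbs : ℤ) ∣ δ ^ (p / 2) - 1 ∧ (k.natAbs : ℤ) ∣ δ ^ (p / 2) + 1 := by
    rcases hk with h | h
    · rw [h]; exact ⟨one_dvd _, one_dvd _⟩
    · rw [h]
      have h2n : (2 : ℤ) ∣ n := by
        rw [← Int.dvd_natAbs, hn, h]
        exact_mod_cast dvd_mul_right 2 _
      have hodd : Odd δ := by
        rw [← Int.not_even_iff_odd]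
        intro hev
        have h3 := hc.isUnit_of_dvd' (even_iff_two_dvd.1 hev) h2n
        exact absurd (Int.isUnit_iff.1 h3) (by norm_num)
      have ho : Odd (δ ^ (p / 2)) := hodd.pow
      exact ⟨even_iff_two_dvd.1 (ho.sub_odd odd_one), even_iff_two_dvd.1 (ho.add_odd odd_one)⟩
  rcases he with h | h
  · exact Or.inl (key _ h2.1 h)
  · exact Or.inr (key _ h2.2 h)

/-- the exponent `2 (p - 1)`, arbitrary content -/
theorem expo_four {p : ℕ} (hp : p.Prime) (hp2 : p ≠ 2) {k n δ μ : ℤ} (hpk : ¬ (p : ℤ) ∣ k)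
    (hn : n.natAbs = k.natAbs * p) (hc : IsCoprime δ n) (hμ : μ = 1 ∨ μ = -1)
    (hδ : k ∣ δ ^ 2 - μ) : n ∣ δ ^ (4 * (p / 2)) - 1 := by
  have hpn : (p : ℤ) ∣ n := by
    rw [← Int.dvd_natAbs, hn]
    exact_mod_cast dvd_mul_left p _
  have hcp : IsCoprime δ (p : ℤ) := hc.of_isCoprime_of_dvd_right hpn
  have hodd : p % 2 = 1 := hp.eq_two_or_odd.resolve_left hp2
  have h1 : (p : ℤ) ∣ δ ^ (4 * (p / 2)) - 1 := by
    have e : δ ^ (4 * (p / 2)) - 1 = (δ ^ (p / 2) - 1) * (δ ^ (p / 2) + 1) *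
        ((δ ^ (p / 2)) ^ 2 + 1) := by
      rw [mul_comm 4, pow_mul]
      ring
    rw [e]
    rcases euler_pm hp hcp with h | h
    · exact dvd_mul_of_dvd_left (dvd_mul_of_dvd_left h _) _
    · exact dvd_mul_of_dvd_left (dvd_mul_of_dvd_right h _) _
  have h2 : k ∣ δ ^ (4 * (p / 2)) - 1 := by
    have e : δ ^ (4 * (p / 2)) - 1 = (δ ^ 2) ^ (2 * (p / 2)) - μ ^ (2 * (p / 2)) := by
      have h3 : μ ^ (2 * (p / 2)) = 1 := by
        rw [pow_mul]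
        rcases hμ with rfl | rfl <;> norm_num
      rw [h3, ← pow_mul]
      congr 2
      omega
    rw [e]
    exact hδ.trans (sub_dvd_pow_sub_pow _ _ _)
  rw [← Int.natAbs_dvd, hn, Nat.cast_mul]
  refine IsCoprime.mul_dvd ?_ ?_ h1
  · refine IsCoprime.symm ?_
    rw [(Nat.prime_iff_prime_int.1 hp).coprime_iff_not_dvd, Int.dvd_natAbs]
    exact hpk
  · rw [Int.natAbs_dvd]
    exact h2

theorem refl_foldr_mem {l : List Mu} (hl : ∀ v ∈ l, Qf n B C v = 1 ∨ Qf n B C v = -1) :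
    ∃ g ∈ W n B C, ∀ x, g x = l.foldr (fun v y => refl n B C v y) x := by
  induction l with
  | nil => exact ⟨1, one_mem _, fun x => rfl⟩
  | cons v l ih =>
    obtain ⟨g, hg, h⟩ := ih fun w hw => hl w (List.mem_cons_of_mem _ hw)
    refine ⟨R n B C v (hl v List.mem_cons_self) * g, mul_mem (R_mem _) hg, fun x => ?_⟩
    rw [LinearEquiv.mul_apply, h]
    rfl

theorem mem_of_isProd {g : Au} {F : Mu → Mu} (hF : IsProd n B C F) (hg : ∀ x, g x = F x) :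
    g ∈ W n B C := by
  obtain ⟨l, h1, h2⟩ := hF
  obtain ⟨g', hg', h3⟩ := refl_foldr_mem h1
  have : g = g' := by
    apply LinearEquiv.ext
    intro x
    rw [hg, h2, h3]
  rw [this]
  exact hg'

/-- a subgroup of `ℤ` which is not contained in `ℓ ℤ` for any prime `ℓ` -/
theorem one_mem_of {J : AddSubgroup ℤ}
    (h : ∀ ℓ : ℕ, ℓ.Prime → ∃ j : ℕ, (j : ℤ) ∈ J ∧ ¬ ℓ ∣ j) : (1 : ℤ) ∈ J := by
  obtain ⟨a, ha⟩ := Int.subgroup_cyclic J
  have hJ : ∀ j : ℤ, j ∈ J ↔ a ∣ j := by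
    intro j
    rw [ha, AddSubgroup.mem_closure_singleton]
    constructor
    · rintro ⟨m, rfl⟩
      exact ⟨m, by rw [smul_eq_mul, mul_comm]⟩
    · rintro ⟨m, rfl⟩
      exact ⟨m, by rw [smul_eq_mul, mul_comm]⟩
  by_cases h1 : a.natAbs = 1
  · rw [hJ, ← Int.natAbs_dvd, h1]
    exact_mod_cast one_dvd 1
  · exfalso
    obtain ⟨ℓ, hℓ, hℓa⟩ := Nat.exists_prime_and_dvd h1
    obtain ⟨j, hj, hj'⟩ := h ℓ hℓ
    rw [hJ] at hj
    apply hj'
    have h2 : (ℓ : ℤ) ∣ (j : ℤ) := (Int.natCast_dvd.2 hℓa).trans hj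
    exact_mod_cast h2

/-- the arithmetic of `p ≠ 1` modulo `ℓ` -/
theorem not_dvd_half {p ℓ : ℕ} (hp : p.Prime) (hp2 : p ≠ 2) (hℓ : ℓ.Prime)
    (h : ¬ p ≡ 1 [MOD if ℓ = 2 then 4 else ℓ]) : ¬ ℓ ∣ p / 2 := by
  have hodd : p % 2 = 1 := hp.eq_two_or_odd.resolve_left hp2
  rintro ⟨c, hc⟩
  apply h
  have e : p = 1 + 2 * (ℓ * c) := by omega
  by_cases h2 : ℓ = 2
  · rw [if_pos h2, e, h2]
    have : 1 + 2 * (2 * c) = 1 + 4 * c := by ring
    rw [this]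
    exact (Nat.modEq_iff_dvd' (by omega)).2 ⟨c, by omega⟩ |>.symm
  · rw [if_neg h2]
    exact ((Nat.modEq_iff_dvd' (by omega)).2 ⟨2 * c, by rw [e]; ring_nf; omega⟩).symm

/-- an automorphism of the Mukai lattice with the values of the lift -/
theorem lift_exists {ν : ℤ} (hν : ν = 1 ∨ ν = -1) {f : ℤ × ℤ →+ ℤ × ℤ}
    (hΔ0 : 0 < B ^ 2 - 4 * n * C) (hΔs : ¬ IsSquare (B ^ 2 - 4 * n * C))
    (hf : ∀ x, qf n B C (f x) = qf n B C x) (hd : DiscAct n B C ν f) :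
    ∃ G : Au, ∀ x, G x = lift ν f x := by
  rcases lift_kind hν hΔ0 hΔs hf hd with ⟨g, _, h⟩ | ⟨δ, t, μ, hμ, hμ', hN, g, _, _, _, h⟩
  · exact ⟨g, h⟩
  · exact ⟨_, h⟩

/-- the iterates, in a basis whose first vector has the value `± k p` -/
theorem lift_iter {ν k : ℤ} (hν : ν = 1 ∨ ν = -1) {f : ℤ × ℤ →+ ℤ × ℤ}
    (hΔ0 : 0 < B ^ 2 - 4 * n * C) (hΔs : ¬ IsSquare (B ^ 2 - 4 * n * C))
    (hf : ∀ x, qf n B C (f x) = qf n B C x) (hd : DiscAct n B C ν f) {p : ℕ} (hp : p.Prime)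
    (hp2 : p ≠ 2) (hpk : ¬ (p : ℤ) ∣ k) (hk0 : k ≠ 0) (hn : n.natAbs = k.natAbs * p)
    (hkn : k ∣ n) (hkB : k ∣ B) :
    (k.natAbs ≤ 2 → IsProd n B C ((lift ν f)^[p / 2])) ∧
      IsProd n B C ((lift ν f)^[4 * (p / 2)]) := by
  have hn0 : n ≠ 0 := by
    intro h
    rw [h, Int.natAbs_zero] at hn
    rcases Nat.mul_eq_zero.1 hn.symm with h | h
    · exact hk0 (Int.natAbs_eq_zero.1 h)
    · exact hp.ne_zero h
  rcases lift_kind hν hΔ0 hΔs hf hd with ⟨g, hgW, h⟩ | ⟨δ, t, μ, hμ, hμ', hN, g, hgW, ht, hc, h⟩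
  · have H : ∀ j : ℕ, IsProd n B C ((lift ν f)^[j]) := fun j => by
      obtain ⟨l, h1, h2⟩ := isProd_of_mem (pow_mem hgW j)
      exact ⟨l, h1, fun x => by rw [← pow_apply_iterate h, h2]⟩
    exact ⟨fun _ => H _, H _⟩
  · have H : ∀ j : ℕ, (n ∣ δ ^ j - 1 ∨ n ∣ δ ^ j + 1) → IsProd n B C ((lift ν f)^[j]) := by
      intro j hj
      have h3 : (g * mE n B C δ t μ hμ' hN) ^ j ∈ W n B C := by
        rw [hc.mul_pow]
        exact mul_mem (pow_mem hgW _) (mE_pow_pm hn0 hμ hμ' hN hj)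
      obtain ⟨l, h1, h2⟩ := isProd_of_mem h3
      exact ⟨l, h1, fun x => by rw [← pow_apply_iterate h, h2]⟩
    have hco : IsCoprime δ n := by
      refine ⟨μ * (δ + t * B), μ * (t ^ 2 * C), ?_⟩
      linear_combination μ * hN + hμ'
    refine ⟨fun hk => H _ (expo_half hp hp2 ?_ hn hco), H _ (Or.inl ?_)⟩
    · have : k.natAbs ≠ 0 := Int.natAbs_ne_zero.2 hk0
      omega
    · refine expo_four hp hp2 hpk hn hco hμ ?_
      have e : δ ^ 2 - μ = -(δ * t * B) - t ^ 2 * C * n := by rw [← hN]; ring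
      rw [e]
      exact dvd_sub ((dvd_mul_of_dvd_right hkB _).neg_right) (dvd_mul_of_dvd_right hkn _)

/-- **From prime values to products of reflections.** -/
theorem lift_of_primes {n₀ B₀ C₀ k : ℤ} (hk0 : k ≠ 0)
    (hΔ0 : 0 < B₀ ^ 2 - 4 * n₀ * C₀) (hΔs : ¬ IsSquare (B₀ ^ 2 - 4 * n₀ * C₀))
    (hP : ∀ ℓ : ℕ, ℓ.Prime → ∃ (b : ℤ × ℤ) (p : ℕ), Prim b ∧ p.Prime ∧ p ≠ 2 ∧
      (qf n₀ B₀ C₀ b).natAbs = p ∧ ¬ (p : ℤ) ∣ k ∧ ¬ p ≡ 1 [MOD if ℓ = 2 then 4 else ℓ])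
    {ν : ℤ} (hν : ν = 1 ∨ ν = -1) {f : ℤ × ℤ →+ ℤ × ℤ}
    (hf : ∀ x, qf (k * n₀) (k * B₀) (k * C₀) (f x) = qf (k * n₀) (k * B₀) (k * C₀) x)
    (hd : DiscAct (k * n₀) (k * B₀) (k * C₀) ν f) :
    (k.natAbs ≤ 2 → IsProd (k * n₀) (k * B₀) (k * C₀) (lift ν f)) ∧
      IsProd (k * n₀) (k * B₀) (k * C₀) ((lift ν f)^[4]) := by
  have hk2 : 0 < k ^ 2 := by positivity
  have hΔ : (k * B₀) ^ 2 - 4 * (k * n₀) * (k * C₀) = k ^ 2 * (B₀ ^ 2 - 4 * n₀ * C₀) := by ring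
  have hΔ0' : 0 < (k * B₀) ^ 2 - 4 * (k * n₀) * (k * C₀) := by
    rw [hΔ]; exact mul_pos hk2 hΔ0
  have hΔs' : ¬ IsSquare ((k * B₀) ^ 2 - 4 * (k * n₀) * (k * C₀)) := by
    rw [hΔ]
    rintro ⟨r, hr⟩
    apply hΔs
    have h1 : k ^ 2 ∣ r ^ 2 := ⟨_, by rw [sq r, ← hr]⟩
    obtain ⟨s, hs⟩ := (Int.pow_dvd_pow_iff two_ne_zero).1 h1
    refine ⟨s, mul_left_cancel₀ hk2.ne' ?_⟩
    rw [hr, hs]
    ring
  obtain ⟨G, hG⟩ := lift_exists hν hΔ0' hΔs' hf hd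
  -- the iterates for every `ℓ`
  have key : ∀ ℓ : ℕ, ℓ.Prime → ∃ j : ℕ, ¬ ℓ ∣ j ∧
      (k.natAbs ≤ 2 → G ^ j ∈ W (k * n₀) (k * B₀) (k * C₀)) ∧
        G ^ (4 * j) ∈ W (k * n₀) (k * B₀) (k * C₀) := by
    intro ℓ hℓ
    obtain ⟨a, p, ha, hp, hp2, hap, hpk, hpℓ⟩ := hP ℓ hℓ
    refine ⟨p / 2, not_dvd_half hp hp2 hℓ hpℓ, ?_⟩
    obtain ⟨b, hb⟩ := ha.exists
    obtain ⟨f', h1, h2, h3⟩ := transport hb hf hd
    have hq : qf (k * n₀) (k * B₀) (k * C₀) a = k * qf n₀ B₀ C₀ a := by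
      simp only [qf]; ring
    have hpf : pf (k * n₀) (k * B₀) (k * C₀) a b = k * pf n₀ B₀ C₀ a b := by
      simp only [pf]; ring
    have h4 := lift_iter (k := k) (p := p) hν (by rw [disc_cb hb]; exact hΔ0')
      (by rw [disc_cb hb]; exact hΔs') h2 h3 hp hp2 hpk hk0
      (by rw [hq, Int.natAbs_mul, hap]) ⟨_, hq⟩ ⟨_, hpf⟩
    have h5 : ∀ j : ℕ, IsProd (qf (k * n₀) (k * B₀) (k * C₀) a)
        (pf (k * n₀) (k * B₀) (k * C₀) a b) (qf (k * n₀) (k * B₀) (k * C₀) b)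
        ((lift ν f')^[j]) → G ^ j ∈ W (k * n₀) (k * B₀) (k * C₀) := fun j hj =>
      mem_of_isProd (isProd_cb hb (g' := (lift ν f')^[j]) (lift_iterate_cb h1 _) hj)
        fun x => pow_apply_iterate hG j x
    exact ⟨fun hk => h5 _ (h4.1 hk), h5 _ h4.2⟩
  refine ⟨fun hk => ?_, ?_⟩
  · let J : AddSubgroup ℤ :=
      { carrier := {j | G ^ j ∈ W (k * n₀) (k * B₀) (k * C₀)}
        add_mem' := fun {a b} ha hb => by
          change G ^ (a + b) ∈ W (k * n₀) (k * B₀) (k * C₀)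
          rw [zpow_add]
          exact mul_mem ha hb
        zero_mem' := by
          change G ^ (0 : ℤ) ∈ W (k * n₀) (k * B₀) (k * C₀)
          rw [zpow_zero]
          exact one_mem _
        neg_mem' := fun {a} ha => by
          change G ^ (-a) ∈ W (k * n₀) (k * B₀) (k * C₀)
          rw [zpow_neg]
          exact inv_mem ha }
    have h1 : (1 : ℤ) ∈ J := one_mem_of fun ℓ hℓ => by
      obtain ⟨j, hj, hj', _⟩ := key ℓ hℓ
      refine ⟨j, ?_, hj⟩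
      change G ^ (j : ℤ) ∈ W (k * n₀) (k * B₀) (k * C₀)
      rw [zpow_natCast]
      exact hj' hk
    have h2 : G ^ (1 : ℤ) ∈ W (k * n₀) (k * B₀) (k * C₀) := h1
    rw [zpow_one] at h2
    obtain ⟨l, h3, h4⟩ := isProd_of_mem h2
    exact ⟨l, h3, fun x => by rw [← hG, h4]⟩
  · let J : AddSubgroup ℤ :=
      { carrier := {j | G ^ (4 * j) ∈ W (k * n₀) (k * B₀) (k * C₀)}
        add_mem' := fun {a b} ha hb => by
          change G ^ (4 * (a + b)) ∈ W (k * n₀) (k * B₀) (k * C₀)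
          rw [mul_add, zpow_add]
          exact mul_mem ha hb
        zero_mem' := by
          change G ^ (4 * (0 : ℤ)) ∈ W (k * n₀) (k * B₀) (k * C₀)
          rw [mul_zero, zpow_zero]
          exact one_mem _
        neg_mem' := fun {a} ha => by
          change G ^ (4 * (-a)) ∈ W (k * n₀) (k * B₀) (k * C₀)
          rw [mul_neg, zpow_neg]
          exact inv_mem ha }
    have h1 : (1 : ℤ) ∈ J := one_mem_of fun ℓ hℓ => by
      obtain ⟨j, hj, _, hj'⟩ := key ℓ hℓ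
      refine ⟨j, ?_, hj⟩
      change G ^ (4 * (j : ℤ)) ∈ W (k * n₀) (k * B₀) (k * C₀)
      have e : (4 * (j : ℤ)) = ((4 * j : ℕ) : ℤ) := by push_cast; ring
      rw [e, zpow_natCast]
      exact hj'
    have h2 : G ^ (4 * (1 : ℤ)) ∈ W (k * n₀) (k * B₀) (k * C₀) := h1
    have e : (4 * (1 : ℤ)) = ((4 : ℕ) : ℤ) := by norm_num
    rw [e, zpow_natCast] at h2
    obtain ⟨l, h3, h4⟩ := isProd_of_mem h2
    exact ⟨l, h3, fun x => by rw [← pow_apply_iterate hG, h4]⟩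

end Pool.Agent.Mukai
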