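import Pool.Agent.Work.MP_1e087a_ag.Q.Defs

set_option autoImplicit false

/-!
The link between the primitive values of a binary form and the ideals of a quadratic field.
-/

namespace Pool.Agent.Mukai.RQ

open NumberField Ideal

set_option linter.unusedSectionVars false

variable {K : Type} [Field K] [NumberField K]

/-- a root `ω` of `x² - B x + n C` in the ring of integers of `K`, and a modulus `m` with
`m 𝓞 ⊆ ℤ n + ℤ ω` -/
structure QD (K : Type) [Field K] [NumberField K] (n B C : ℤ) (m : ℕ) where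
  /-- the root -/
  ω : 𝓞 K
  sq : ω * ω = B * ω - n * C
  norm : ∀ x y : ℤ, Algebra.norm ℤ ((x : 𝓞 K) + y * ω) = x ^ 2 + B * x * y + n * C * y ^ 2
  dvd : ∀ z : 𝓞 K, ∃ u w : ℤ, (m : 𝓞 K) * z = n * u + w * ω

/-- the form -/
def qq (n B C u w : ℤ) : ℤ := n * u ^ 2 + B * (u * w) + C * w ^ 2

lemma span_int_mem {m : ℕ} {x : 𝓞 K} (h : x ∈ span {(m : 𝓞 K)}) : ∃ z, x = m * z := by
  obtain ⟨z, hz⟩ := mem_span_singleton.1 h
  exact ⟨z, hz⟩

lemma RatMod.mul' {m : ℕ} {x y : 𝓞 K} (hx : RatMod m x) (hy : RatMod m y) : RatMod m (x * y) := by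
  obtain ⟨r, hr, h1⟩ := hx
  obtain ⟨s, hs, h2⟩ := hy
  refine ⟨r * s, hr.mul_left hs, ?_⟩
  have : x * y - ((r * s : ℤ) : 𝓞 K) = (x - r) * y + (r : 𝓞 K) * (y - s) := by
    push_cast
    ring
  rw [this]
  exact Ideal.add_mem _ (Ideal.mul_mem_right _ _ h1) (Ideal.mul_mem_left _ _ h2)

lemma RatMod.int' {m : ℕ} {r : ℤ} (hr : IsCoprime r (m : ℤ)) : RatMod (K := K) m (r : 𝓞 K) :=
  ⟨r, hr, by rw [sub_self]; exact Submodule.zero_mem _⟩

variable {n B C : ℤ} {m : ℕ}

namespace QD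

variable (D : QD K n B C m)

/-- the element of the lattice `ℤ n + ℤ ω` -/
noncomputable def th (u w : ℤ) : 𝓞 K := n * u + w * D.ω

lemma norm_th (u w : ℤ) : Algebra.norm ℤ (D.th u w) = n * qq n B C u w := by
  have h := D.norm (n * u) w
  have h2 : (((n * u : ℤ)) : 𝓞 K) + w * D.ω = D.th u w := by
    unfold th
    push_cast
    ring
  rw [h2] at h
  rw [h, qq]
  ring

lemma absNorm_th (u w : ℤ) : absNorm (span {D.th u w}) = n.natAbs * (qq n B C u w).natAbs := by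
  rw [absNorm_span_singleton, norm_th, Int.natAbs_mul]

/-- the product with the conjugate -/
lemma th_mul (u w : ℤ) : D.th u w * (n * u + w * (B - D.ω)) = (n : 𝓞 K) * (qq n B C u w : ℤ) := by
  have h := D.sq
  unfold th qq
  push_cast
  linear_combination (-(w : 𝓞 K) ^ 2) * h

/-- elements which are congruent to an integral multiple of an element of the lattice -/
lemma mem_lattice {u₀ w₀ : ℤ} {b γ δ : 𝓞 K} (hγ : RatMod m γ) (hδ : RatMod m δ)
    (h : γ * b = δ * D.th u₀ w₀) : ∃ u w : ℤ, b = D.th u w := by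
  obtain ⟨s, ⟨s', t, hs⟩, h1⟩ := hγ
  obtain ⟨r, -, h2⟩ := hδ
  obtain ⟨g, hg⟩ := span_int_mem h1
  obtain ⟨d, hd⟩ := span_int_mem h2
  obtain ⟨u, w, huw⟩ := D.dvd (s' * (d * D.th u₀ w₀ - g * b) + t * b)
  have hs' : (s' : 𝓞 K) * s + t * m = 1 := by exact_mod_cast hs
  refine ⟨s' * r * u₀ + u, s' * r * w₀ + w, ?_⟩
  have e1 : b = (s' : 𝓞 K) * r * D.th u₀ w₀ +
      (m : 𝓞 K) * (s' * (d * D.th u₀ w₀ - g * b) + t * b) := by
    linear_combination (-b) * hs' + (s' : 𝓞 K) * h + (-(s' : 𝓞 K) * b) * hg +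
      ((s' : 𝓞 K) * D.th u₀ w₀) * hd
  rw [huw] at e1
  rw [e1]
  unfold th
  push_cast
  ring

/-- the ideal attached to a vector -/
noncomputable def bb (u w : ℤ) : Ideal (𝓞 K) := span {D.th u w, ((qq n B C u w : ℤ) : 𝓞 K)}

/-- the complementary ideal -/
noncomputable def gg (u w : ℤ) : Ideal (𝓞 K) := span {D.th u w, (n : 𝓞 K)}

lemma bb_top {u w : ℤ} (hc : IsCoprime (qq n B C u w) (m : ℤ)) :
    D.bb u w ⊔ span {(m : 𝓞 K)} = ⊤ := by
  obtain ⟨a, b, hab⟩ := hc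
  have h : (a : 𝓞 K) * (qq n B C u w : ℤ) + b * m = 1 := by exact_mod_cast hab
  rw [eq_top_iff_one, ← h]
  refine Ideal.add_mem _ (Ideal.mul_mem_left _ _ (Ideal.mem_sup_left ?_))
    (Ideal.mul_mem_left _ _ (Ideal.mem_sup_right (mem_span_singleton_self _)))
  exact Ideal.subset_span (by simp)

lemma gg_mul_bb {u w : ℤ} (hc : IsCoprime (qq n B C u w) n) :
    D.gg u w * D.bb u w = span {D.th u w} := by
  unfold gg bb
  rw [span_pair_mul_span_pair]
  apply le_antisymm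
  · rw [span_le]
    intro x hx
    rw [SetLike.mem_coe, mem_span_singleton]
    rcases hx with rfl | rfl | rfl | rfl
    · exact Dvd.intro _ rfl
    · exact Dvd.intro _ rfl
    · exact Dvd.intro_left _ rfl
    · rw [← D.th_mul]
      exact Dvd.intro _ rfl
  · rw [span_singleton_le_iff_mem]
    obtain ⟨a, b, hab⟩ := hc
    have h : (a : 𝓞 K) * (qq n B C u w : ℤ) + b * n = 1 := by exact_mod_cast hab
    have h2 : (a : 𝓞 K) * (D.th u w * (qq n B C u w : ℤ)) +
        b * ((n : 𝓞 K) * D.th u w) = D.th u w := by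
      linear_combination (D.th u w) * h
    have h3 := Ideal.add_mem _ (Ideal.mul_mem_left _ (a : 𝓞 K) (Ideal.subset_span
      (s := {D.th u w * D.th u w, D.th u w * ((qq n B C u w : ℤ) : 𝓞 K), (n : 𝓞 K) * D.th u w,
        (n : 𝓞 K) * ((qq n B C u w : ℤ) : 𝓞 K)}) (Or.inr (Or.inl rfl))))
      (Ideal.mul_mem_left _ (b : 𝓞 K) (Ideal.subset_span (Or.inr (Or.inr (Or.inl rfl)))))
    rwa [h2] at h3

include D in
lemma absNorm_int (a : ℤ) : absNorm (span {(a : 𝓞 K)}) = a.natAbs ^ 2 := by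
  have h := D.norm a 0
  rw [absNorm_span_singleton]
  have h2 : ((a : ℤ) : 𝓞 K) + (0 : ℤ) * D.ω = (a : 𝓞 K) := by
    push_cast
    ring
  rw [h2] at h
  rw [h, ← Int.natAbs_pow]
  congr 1
  ring

lemma absNorm_gg {u w : ℤ} (hc : IsCoprime (qq n B C u w) n) : absNorm (D.gg u w) = n.natAbs := by
  have h1 := congrArg absNorm (D.gg_mul_bb hc)
  rw [_root_.map_mul, absNorm_th] at h1
  have h2 : absNorm (D.gg u w) ∣ n.natAbs ^ 2 := by
    rw [← D.absNorm_int n]
    apply absNorm_dvd_absNorm_of_le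
    rw [span_singleton_le_iff_mem]
    exact Ideal.subset_span (by simp)
  have h3 : absNorm (D.bb u w) ∣ (qq n B C u w).natAbs ^ 2 := by
    rw [← D.absNorm_int (qq n B C u w)]
    apply absNorm_dvd_absNorm_of_le
    rw [span_singleton_le_iff_mem]
    exact Ideal.subset_span (by simp)
  have hc' : Nat.Coprime (qq n B C u w).natAbs n.natAbs := Int.isCoprime_iff_gcd_eq_one.1 hc
  have c1 : Nat.Coprime (absNorm (D.gg u w)) (qq n B C u w).natAbs :=
    Nat.Coprime.coprime_dvd_left h2 (Nat.Coprime.pow_left 2 hc'.symm)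
  have c2 : Nat.Coprime (absNorm (D.bb u w)) n.natAbs :=
    Nat.Coprime.coprime_dvd_left h3 (Nat.Coprime.pow_left 2 hc')
  apply Nat.dvd_antisymm
  · exact c1.dvd_of_dvd_mul_right (h1 ▸ Dvd.intro _ rfl)
  · exact c2.symm.dvd_of_dvd_mul_right (h1 ▸ Dvd.intro _ rfl)

/-- an element of norm `± n p` in the lattice gives a primitive value `± p` -/
lemma prime_value {b : 𝓞 K} {p : ℕ} (hn : n ≠ 0) (hp : p.Prime) {γ δ : 𝓞 K} {u₀ w₀ : ℤ}
    (hγ : RatMod m γ) (hδ : RatMod m δ) (h : γ * b = δ * D.th u₀ w₀)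
    (hb : absNorm (span {b}) = n.natAbs * p) :
    ∃ u w : ℤ, IsCoprime u w ∧ (qq n B C u w).natAbs = p := by
  obtain ⟨u, w, rfl⟩ := D.mem_lattice hγ hδ h
  rw [absNorm_th] at hb
  have hq : (qq n B C u w).natAbs = p :=
    Nat.eq_of_mul_eq_mul_left (Int.natAbs_pos.2 hn) hb
  refine ⟨u, w, ?_, hq⟩
  rw [Int.isCoprime_iff_gcd_eq_one]
  by_contra hg
  have h1 : ((Int.gcd u w : ℕ) : ℤ) ^ 2 ∣ qq n B C u w := by
    obtain ⟨a, ha⟩ := Int.gcd_dvd_left u w
    obtain ⟨b, hb⟩ := Int.gcd_dvd_right u w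
    generalize ((Int.gcd u w : ℕ) : ℤ) = g at *
    refine ⟨qq n B C a b, ?_⟩
    unfold qq
    rw [ha, hb]
    ring
  have h2 : (Int.gcd u w) ^ 2 ∣ p := by
    rw [← hq]
    have := Int.natAbs_dvd_natAbs.2 h1
    rwa [Int.natAbs_pow, Int.natAbs_natCast] at this
  have h3 : Int.gcd u w ∣ p := (Dvd.intro_left _ (by ring : Int.gcd u w * Int.gcd u w = _)).trans h2
  rcases (Nat.dvd_prime hp).1 h3 with h4 | h4
  · exact hg h4
  · rw [h4] at h2
    have h5 := Nat.le_of_dvd hp.pos h2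
    nlinarith [hp.two_le]

/-- **The link.** -/
theorem link (hn : n ≠ 0) (hnm : n ∣ m) {u₀ w₀ : ℤ} (hc : IsCoprime (qq n B C u₀ w₀) (m : ℤ))
    {v : Ideal (𝓞 K)} (hp : (absNorm v).Prime)
    (hpm : Nat.Coprime (absNorm v) m)
    (h : Req m v (D.bb u₀ w₀) ∨ Req m (v * D.bb u₀ w₀) ⊤) :
    ∃ u w : ℤ, IsCoprime u w ∧ (qq n B C u w).natAbs = absNorm v := by
  have hcn : IsCoprime (qq n B C u₀ w₀) n := hc.of_isCoprime_of_dvd_right hnm
  have hgb := D.gg_mul_bb hcn
  have hg := D.absNorm_gg hcn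
  rcases h with ⟨α, β, hα, hβ, rα, rβ, he⟩ | ⟨α, β, hα, hβ, rα, rβ, he⟩
  · -- `(b) = gg v`
    have e1 : span {β * D.th u₀ w₀} = span {α} * (D.gg u₀ w₀ * v) := by
      rw [← span_singleton_mul_span_singleton, ← hgb]
      calc span {β} * (D.gg u₀ w₀ * D.bb u₀ w₀) = D.gg u₀ w₀ * (span {β} * D.bb u₀ w₀) := by ring
        _ = _ := by rw [← he]; ring
    obtain ⟨b, hb⟩ : α ∣ β * D.th u₀ w₀ := by
      rw [← span_singleton_le_span_singleton, e1]
      exact Ideal.mul_le_left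
    refine D.prime_value hn hp rα rβ hb.symm ?_
    have e2 : span {α} * span {b} = span {α} * (D.gg u₀ w₀ * v) := by
      rw [← e1, hb, span_singleton_mul_span_singleton]
    have e3 : span {b} = D.gg u₀ w₀ * v :=
      mul_left_cancel₀ (by rw [Ne, Ideal.zero_eq_bot, span_singleton_eq_bot]; exact hα) e2
    rw [e3, _root_.map_mul, hg]
  · have hmem : ((absNorm v : ℕ) : 𝓞 K) ∈ v := absNorm_mem v
    obtain ⟨J, hJ⟩ : v ∣ span {((absNorm v : ℕ) : 𝓞 K)} := by
      rw [dvd_iff_le, span_singleton_le_iff_mem]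
      exact hmem
    have hNJ : absNorm J = absNorm v := by
      have h1 := congrArg absNorm hJ
      rw [_root_.map_mul] at h1
      have h2 := D.absNorm_int (absNorm v : ℤ)
      rw [Int.cast_natCast, Int.natAbs_natCast] at h2
      rw [h2, _root_.pow_two] at h1
      exact (Nat.eq_of_mul_eq_mul_left hp.pos h1).symm
    rw [Ideal.mul_top] at he
    have e1 : span {((absNorm v : ℕ) : 𝓞 K) * α * D.th u₀ w₀} =
        span {β} * (D.gg u₀ w₀ * J) := by
      rw [← span_singleton_mul_span_singleton, ← span_singleton_mul_span_singleton, ← hgb, hJ, ← he]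
      ring
    obtain ⟨b, hb⟩ : β ∣ ((absNorm v : ℕ) : 𝓞 K) * α * D.th u₀ w₀ := by
      rw [← span_singleton_le_span_singleton, e1]
      exact Ideal.mul_le_left
    have rp : RatMod m (((absNorm v : ℕ) : 𝓞 K) * α) := by
      refine RatMod.mul' ?_ rα
      have := RatMod.int' (K := K) (m := m) (r := (absNorm v : ℤ)) (Nat.isCoprime_iff_coprime.2 hpm)
      rwa [Int.cast_natCast] at this
    refine D.prime_value hn hp rβ rp hb.symm ?_
    have e2 : span {β} * span {b} = span {β} * (D.gg u₀ w₀ * J) := by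
      rw [← e1, hb, span_singleton_mul_span_singleton]
    have e3 : span {b} = D.gg u₀ w₀ * J :=
      mul_left_cancel₀ (by rw [Ne, Ideal.zero_eq_bot, span_singleton_eq_bot]; exact hβ) e2
    rw [e3, _root_.map_mul, hg, hNJ]

end QD

end Pool.Agent.Mukai.RQ
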