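import Pool.Agent.Work.MP_1e087a_ag.Q.Defs
import Pool.Agent.Work.MP_2b9663_nt.He.Glue

set_option autoImplicit false
set_option linter.unusedSectionVars false

/-!
The ring class group modulo `m` of a number field and its characters.
-/

namespace Pool.Agent.Mukai.RQ

open NumberField Ideal
open scoped nonZeroDivisors
open Pool.Agent.Work.MP_2b9663_nt

variable {K : Type} [Field K] [NumberField K]

lemma ratMod_one_of_sub_mem {m : ℕ} {x : 𝓞 K} (h : x - 1 ∈ span {(m : 𝓞 K)}) : RatMod m x :=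
  ⟨1, isCoprime_one_left, by simpa using h⟩

lemma ratMod_one (m : ℕ) : RatMod m (1 : 𝓞 K) := ratMod_one_of_sub_mem (by simp)

lemma RatMod.mul {m : ℕ} {x y : 𝓞 K} (hx : RatMod m x) (hy : RatMod m y) : RatMod m (x * y) := by
  obtain ⟨r, hr, hx⟩ := hx
  obtain ⟨s, hs, hy⟩ := hy
  refine ⟨r * s, hr.mul_left hs, ?_⟩
  have h : x * y - ((r * s : ℤ) : 𝓞 K) = y * (x - (r : 𝓞 K)) + (r : 𝓞 K) * (y - (s : 𝓞 K)) := by
    push_cast
    ring
  rw [h]
  exact Ideal.add_mem _ (Ideal.mul_mem_left _ _ hx) (Ideal.mul_mem_left _ _ hy)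

lemma sup_top_of_inv {m : ℕ} {x y : 𝓞 K} (h : y * x - 1 ∈ span {(m : 𝓞 K)}) :
    span {x} ⊔ span {(m : 𝓞 K)} = ⊤ := by
  rw [Ideal.eq_top_iff_one]
  have h1 : (1 : 𝓞 K) = y * x + -(y * x - 1) := by ring
  rw [h1]
  exact Submodule.add_mem _ (Ideal.mem_sup_left (Ideal.mem_span_singleton'.2 ⟨y, rfl⟩))
    (Ideal.mem_sup_right (Ideal.neg_mem_iff _ |>.2 h))

lemma exists_inv {m : ℕ} (hm : m ≠ 0) {x : 𝓞 K} (h : span {x} ⊔ span {(m : 𝓞 K)} = ⊤) :
    ∃ y : 𝓞 K, y ≠ 0 ∧ y * x - 1 ∈ span {(m : 𝓞 K)} := by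
  have h1 : (1 : 𝓞 K) ∈ span {x} ⊔ span {(m : 𝓞 K)} := by rw [h]; trivial
  obtain ⟨u, hu, v, hv, huv⟩ := Submodule.mem_sup.1 h1
  obtain ⟨y, rfl⟩ := Ideal.mem_span_singleton'.1 hu
  by_cases hy : y = 0
  · subst hy
    refine ⟨(m : 𝓞 K), by exact_mod_cast hm, ?_⟩
    have h2 : (m : 𝓞 K) * x - 1 = x * (m : 𝓞 K) + -v := by
      rw [← huv]; ring
    rw [h2]
    exact Ideal.add_mem _ (Ideal.mul_mem_left _ _ (Ideal.mem_span_singleton_self _))
      (Ideal.neg_mem_iff _ |>.2 hv)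
  · refine ⟨y, hy, ?_⟩
    have h2 : y * x - 1 = -v := by
      rw [← huv]; ring
    rw [h2]
    exact Ideal.neg_mem_iff _ |>.2 hv

lemma RatMod.sup_top {m : ℕ} {x : 𝓞 K} (hx : RatMod m x) : span {x} ⊔ span {(m : 𝓞 K)} = ⊤ := by
  obtain ⟨r, ⟨a, b, hab⟩, hx⟩ := hx
  refine sup_top_of_inv (y := (a : 𝓞 K)) ?_
  have h : (a : 𝓞 K) * x - 1 = (a : 𝓞 K) * (x - (r : 𝓞 K)) + (-(b : 𝓞 K)) * (m : 𝓞 K) := by
    have h1 : (1 : 𝓞 K) = (a : 𝓞 K) * (r : 𝓞 K) + (b : 𝓞 K) * (m : 𝓞 K) := by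
      exact_mod_cast hab.symm
    rw [h1]
    ring
  rw [h]
  exact Ideal.add_mem _ (Ideal.mul_mem_left _ _ hx)
    (Ideal.mul_mem_left _ _ (Ideal.mem_span_singleton_self _))

lemma Req.refl (m : ℕ) (I : Ideal (𝓞 K)) : Req m I I :=
  ⟨1, 1, one_ne_zero, one_ne_zero, ratMod_one m, ratMod_one m, rfl⟩

lemma Req.symm {m : ℕ} {I J : Ideal (𝓞 K)} (h : Req m I J) : Req m J I := by
  obtain ⟨a, b, ha, hb, ha', hb', h⟩ := h
  exact ⟨b, a, hb, ha, hb', ha', h.symm⟩

lemma Req.trans {m : ℕ} {I J L : Ideal (𝓞 K)} (h : Req m I J) (h' : Req m J L) : Req m I L := by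
  obtain ⟨a, b, ha, hb, ha', hb', h⟩ := h
  obtain ⟨c, d, hc, hd, hc', hd', h'⟩ := h'
  refine ⟨c * a, b * d, mul_ne_zero hc ha, mul_ne_zero hb hd, hc'.mul ha', hb'.mul hd', ?_⟩
  rw [← span_singleton_mul_span_singleton, ← span_singleton_mul_span_singleton, mul_assoc, h,
    mul_left_comm, h', mul_assoc]

lemma Req.mul {m : ℕ} {I J I' J' : Ideal (𝓞 K)} (h : Req m I J) (h' : Req m I' J') :
    Req m (I * I') (J * J') := by
  obtain ⟨a, b, ha, hb, ha', hb', h⟩ := h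
  obtain ⟨c, d, hc, hd, hc', hd', h'⟩ := h'
  refine ⟨a * c, b * d, mul_ne_zero ha hc, mul_ne_zero hb hd, ha'.mul hc', hb'.mul hd', ?_⟩
  rw [← span_singleton_mul_span_singleton, ← span_singleton_mul_span_singleton, mul_mul_mul_comm,
    h, h', mul_mul_mul_comm]

/-- the nonzero ideals prime to `m` -/
def PrimeTo (m : ℕ) (I : Ideal (𝓞 K)) : Prop := I ≠ ⊥ ∧ I ⊔ span {(m : 𝓞 K)} = ⊤

lemma sup_mul_top {I J M : Ideal (𝓞 K)} : I * J ⊔ M = ⊤ ↔ I ⊔ M = ⊤ ∧ J ⊔ M = ⊤ := by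
  constructor
  · intro h
    have h1 : I * J ≤ I := Ideal.mul_le_left
    have h2 : I * J ≤ J := Ideal.mul_le_right
    exact ⟨top_le_iff.1 (h ▸ sup_le_sup_right h1 _), top_le_iff.1 (h ▸ sup_le_sup_right h2 _)⟩
  · rintro ⟨h1, h2⟩
    rw [← Ideal.isCoprime_iff_sup_eq] at h1 h2 ⊢
    exact IsCoprime.mul_left h1 h2

lemma primeTo_mul {m : ℕ} {I J : Ideal (𝓞 K)} :
    PrimeTo m (I * J) ↔ PrimeTo m I ∧ PrimeTo m J := by
  unfold PrimeTo
  rw [sup_mul_top]
  have : I * J ≠ ⊥ ↔ I ≠ ⊥ ∧ J ≠ ⊥ := by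
    rw [Ne, Ideal.mul_eq_bot, not_or]
  rw [this]
  tauto

lemma primeTo_top (m : ℕ) : PrimeTo m (⊤ : Ideal (𝓞 K)) := ⟨top_ne_bot, top_sup_eq _⟩

lemma PrimeTo.pow {m : ℕ} {I : Ideal (𝓞 K)} (h : PrimeTo m I) (k : ℕ) : PrimeTo m (I ^ k) := by
  induction k with
  | zero => rw [pow_zero, Ideal.one_eq_top]; exact primeTo_top m
  | succ k ih => rw [pow_succ]; exact primeTo_mul.2 ⟨ih, h⟩

lemma PrimeTo.principal {m : ℕ} {I : Ideal (𝓞 K)} (h : PrimeTo m I)
    (hp : I.IsPrincipal) : ∃ x : 𝓞 K, x ≠ 0 ∧ span {x} = I := by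
  obtain ⟨x, hx⟩ := hp
  refine ⟨x, ?_, hx.symm⟩
  rintro rfl
  apply h.1
  rw [hx]
  simp

/-- ideals prime to `m` in the same class -/
lemma exists_rel {m : ℕ} (hm : m ≠ 0) {I J : Ideal (𝓞 K)} (hI : PrimeTo m I) (hJ : PrimeTo m J)
    (h : ClassGroup.mk0 ⟨I, mem_nonZeroDivisors_of_ne_zero hI.1⟩ =
      ClassGroup.mk0 ⟨J, mem_nonZeroDivisors_of_ne_zero hJ.1⟩) :
    ∃ a b : 𝓞 K, a ≠ 0 ∧ b ≠ 0 ∧ span {a} ⊔ span {(m : 𝓞 K)} = ⊤ ∧
      b - 1 ∈ span {(m : 𝓞 K)} ∧ span {b} * I = span {a} * J := by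
  classical
  set I' : (Ideal (𝓞 K))⁰ := ⟨I, mem_nonZeroDivisors_of_ne_zero hI.1⟩ with hI'
  set J' : (Ideal (𝓞 K))⁰ := ⟨J, mem_nonZeroDivisors_of_ne_zero hJ.1⟩ with hJ'
  obtain ⟨h', hh'⟩ : ∃ h', Fintype.card (ClassGroup (𝓞 K)) = h' + 1 :=
    ⟨_, (Nat.succ_pred_eq_of_pos Fintype.card_pos).symm⟩
  have h1 : (I ^ (h' + 1)).IsPrincipal := by
    refine (ClassGroup.mk0_eq_one_iff (SetLike.coe_mem (I' ^ (h' + 1)))).mp ?_
    have : ClassGroup.mk0 (I' ^ (h' + 1)) = 1 := by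
      rw [map_pow, ← hh', pow_card_eq_one]
    exact this
  have h2 : (J * I ^ h').IsPrincipal := by
    refine (ClassGroup.mk0_eq_one_iff (SetLike.coe_mem (J' * I' ^ h'))).mp ?_
    have : ClassGroup.mk0 (J' * I' ^ h') = 1 := by
      rw [map_mul, map_pow, ← h, ← pow_succ', ← hh', pow_card_eq_one]
    exact this
  have hp1 : PrimeTo m (I ^ (h' + 1)) := hI.pow _
  have hp2 : PrimeTo m (J * I ^ h') := primeTo_mul.2 ⟨hJ, hI.pow _⟩
  obtain ⟨a, ha, ha'⟩ := hp1.principal h1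
  obtain ⟨b, hb, hb'⟩ := hp2.principal h2
  obtain ⟨z, hz, hzb⟩ := exists_inv hm (x := b) (by rw [hb']; exact hp2.2)
  refine ⟨z * a, z * b, mul_ne_zero hz ha, mul_ne_zero hz hb, ?_, hzb, ?_⟩
  · rw [← span_singleton_mul_span_singleton]
    refine sup_mul_top.2 ⟨sup_top_of_inv (y := b) (by rw [mul_comm]; exact hzb), ?_⟩
    rw [ha']
    exact hp1.2
  · rw [← span_singleton_mul_span_singleton, ← span_singleton_mul_span_singleton, ha', hb']
    ring

/-- the inverse in the group of ring classes -/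
lemma exists_inv_ideal {m : ℕ} (hm : m ≠ 0) {I : Ideal (𝓞 K)} (hI : PrimeTo m I) :
    ∃ J : Ideal (𝓞 K), PrimeTo m J ∧ Req m (J * I) ⊤ := by
  classical
  obtain ⟨h', hh'⟩ : ∃ h', Fintype.card (ClassGroup (𝓞 K)) = h' + 1 :=
    ⟨_, (Nat.succ_pred_eq_of_pos Fintype.card_pos).symm⟩
  have h1 : (I ^ (h' + 1)).IsPrincipal := by
    refine (ClassGroup.mk0_eq_one_iff
      (SetLike.coe_mem ((⟨I, mem_nonZeroDivisors_of_ne_zero hI.1⟩ : (Ideal (𝓞 K))⁰) ^ (h' + 1)))).mp ?_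
    have : ClassGroup.mk0 ((⟨I, mem_nonZeroDivisors_of_ne_zero hI.1⟩ : (Ideal (𝓞 K))⁰) ^ (h' + 1)) = 1 := by
      rw [map_pow, ← hh', pow_card_eq_one]
    exact this
  obtain ⟨a, ha, ha'⟩ := (hI.pow (h' + 1)).principal h1
  obtain ⟨z, hz, hza⟩ := exists_inv hm (x := a) (by rw [ha']; exact (hI.pow (h' + 1)).2)
  refine ⟨span {z} * I ^ h', primeTo_mul.2 ⟨⟨?_, ?_⟩, hI.pow _⟩, ?_⟩
  · rw [Ne, span_singleton_eq_bot]
    exact hz
  · exact sup_top_of_inv (y := a) (by rw [mul_comm]; exact hza)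
  · refine ⟨1, z * a, one_ne_zero, mul_ne_zero hz ha, ratMod_one m, ratMod_one_of_sub_mem hza, ?_⟩
    rw [mul_assoc, ← pow_succ, ← ha', span_singleton_mul_span_singleton,
      span_singleton_mul_span_singleton, one_mul, Ideal.mul_top]

/-- the monoid of the nonzero ideals prime to `m` -/
def PM (K : Type) [Field K] [NumberField K] (m : ℕ) : Submonoid (Ideal (𝓞 K)) where
  carrier := {I | PrimeTo m I}
  one_mem' := by rw [Ideal.one_eq_top]; exact primeTo_top m
  mul_mem' h h' := primeTo_mul.2 ⟨h, h'⟩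

/-- the congruence of ring classes -/
def rcon (K : Type) [Field K] [NumberField K] (m : ℕ) : Con (PM K m) where
  r I J := Req m (I : Ideal (𝓞 K)) J
  iseqv := ⟨fun _ => Req.refl m _, fun h => h.symm, fun h h' => h.trans h'⟩
  mul' h h' := h.mul h'

/-- the group of ring classes modulo `m` -/
abbrev RC (K : Type) [Field K] [NumberField K] (m : ℕ) : Type := (rcon K m).Quotient

lemma RC_finite {m : ℕ} (hm : m ≠ 0) : Finite (RC K m) := by
  classical
  set M : Ideal (𝓞 K) := span {(m : 𝓞 K)} with hM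
  have hM0 : M ≠ ⊥ := by
    rw [hM, Ne, span_singleton_eq_bot]
    exact_mod_cast hm
  have hfin : Finite (𝓞 K ⧸ M) := finite_idealQuot hM0
  let cl : PM K m → ClassGroup (𝓞 K) := fun I =>
    ClassGroup.mk0 ⟨(I : Ideal (𝓞 K)), mem_nonZeroDivisors_of_ne_zero I.2.1⟩
  -- representatives of the classes
  have hrep : ∀ c : ClassGroup (𝓞 K), ∃ J : PM K m, (∃ I : PM K m, cl I = c) → cl J = c := by
    intro c
    by_cases h : ∃ I : PM K m, cl I = c
    · obtain ⟨I, hI⟩ := h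
      exact ⟨I, fun _ => hI⟩
    · exact ⟨1, fun h' => absurd h' h⟩
  choose rep hrep using hrep
  have hdata : ∀ I : PM K m, ∃ a b : 𝓞 K, a ≠ 0 ∧ b ≠ 0 ∧ span {a} ⊔ M = ⊤ ∧ b - 1 ∈ M ∧
      span {b} * (I : Ideal (𝓞 K)) = span {a} * (rep (cl I) : Ideal (𝓞 K)) := by
    intro I
    exact exists_rel hm I.2 (rep (cl I)).2 (hrep (cl I) ⟨I, rfl⟩).symm
  choose a b ha hb hac hb1 hab using hdata
  have key : ∀ I J : PM K m, cl I = cl J → Ideal.Quotient.mk M (a I) = Ideal.Quotient.mk M (a J) →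
      Req m (I : Ideal (𝓞 K)) (J : Ideal (𝓞 K)) := by
    intro I J hcl hq
    obtain ⟨y, hy, hya⟩ := exists_inv hm (hac I)
    have hya' : y * a J - 1 ∈ M := by
      have h1 : a I - a J ∈ M := Ideal.Quotient.eq.1 hq
      have h2 : y * a J - 1 = (y * a I - 1) + (-y) * (a I - a J) := by ring
      rw [h2]
      exact Ideal.add_mem _ hya (Ideal.mul_mem_left _ _ h1)
    refine ⟨(y * a J) * b I, (y * a I) * b J, mul_ne_zero (mul_ne_zero hy (ha J)) (hb I),
      mul_ne_zero (mul_ne_zero hy (ha I)) (hb J),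
      (ratMod_one_of_sub_mem hya').mul (ratMod_one_of_sub_mem (hb1 I)),
      (ratMod_one_of_sub_mem hya).mul (ratMod_one_of_sub_mem (hb1 J)), ?_⟩
    rw [← span_singleton_mul_span_singleton (y * a J), ← span_singleton_mul_span_singleton (y * a I),
      mul_assoc, mul_assoc, hab I, hab J, hcl, ← span_singleton_mul_span_singleton y,
      ← span_singleton_mul_span_singleton y]
    ring
  refine Finite.of_injective (fun q : RC K m =>
    (cl (Quotient.out q), Ideal.Quotient.mk M (a (Quotient.out q)))) ?_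
  intro q q' h
  have h1 := key _ _ (congrArg Prod.fst h) (congrArg Prod.snd h)
  rw [← Quotient.out_eq q, ← Quotient.out_eq q']
  exact Quotient.sound h1

/-- the class of an ideal prime to `m` -/
def rmk (m : ℕ) (I : PM K m) : RC K m := ((I : PM K m) : (rcon K m).Quotient)

lemma rmk_eq {m : ℕ} {I J : PM K m} : rmk m I = rmk m J ↔ Req m (I : Ideal (𝓞 K)) J :=
  Con.eq _

lemma rmk_mul {m : ℕ} (I J : PM K m) : rmk m (I * J) = rmk m I * rmk m J := rfl

lemma rmk_one {m : ℕ} : rmk m (1 : PM K m) = 1 := rfl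

lemma RC_inv {m : ℕ} (hm : m ≠ 0) (g : RC K m) : ∃ g' : RC K m, g' * g = 1 := by
  obtain ⟨I, rfl⟩ : ∃ I : PM K m, rmk m I = g := Quotient.exists_rep g
  obtain ⟨J, hJ, h⟩ := exists_inv_ideal hm I.2
  refine ⟨rmk m ⟨J, hJ⟩, ?_⟩
  rw [← rmk_mul, ← rmk_one, rmk_eq]
  rw [← Ideal.one_eq_top] at h
  exact h

/-- the group structure -/
noncomputable abbrev RCgroup {m : ℕ} (hm : m ≠ 0) : CommGroup (RC K m) :=
  { (inferInstance : CommMonoid (RC K m)) with
    inv := fun g => (RC_inv hm g).choose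
    inv_mul_cancel := fun g => (RC_inv hm g).choose_spec }

/-- The ring class group: the classes of the nonzero ideals prime to `m`, as a finite group. -/
lemma exists_group (K : Type) [Field K] [NumberField K] {m : ℕ} (hm : m ≠ 0) :
    ∃ (G : Type) (_ : CommGroup G) (_ : Fintype G) (c : Ideal (𝓞 K) → G), c ⊤ = 1 ∧
      (∀ I J, PrimeTo m I → PrimeTo m J → c (I * J) = c I * c J) ∧
      ∀ I J, PrimeTo m I → PrimeTo m J → (c I = c J ↔ Req m I J) := by
  classical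
  let _ := RCgroup (K := K) hm
  have := RC_finite (K := K) hm
  let _ := Fintype.ofFinite (RC K m)
  refine ⟨RC K m, inferInstance, inferInstance, fun I => if h : PrimeTo m I then rmk m ⟨I, h⟩ else 1,
    ?_, ?_, ?_⟩
  · show (if h : PrimeTo m (⊤ : Ideal (𝓞 K)) then rmk m ⟨⊤, h⟩ else 1) = 1
    rw [dif_pos (primeTo_top m)]
    refine Eq.trans ?_ (rmk_one (K := K) (m := m))
    congr 1
    exact Subtype.ext Ideal.one_eq_top.symm
  · intro I J hI hJ
    show (if h : PrimeTo m (I * J) then rmk m ⟨I * J, h⟩ else 1) =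
      (if h : PrimeTo m I then rmk m ⟨I, h⟩ else 1) * (if h : PrimeTo m J then rmk m ⟨J, h⟩ else 1)
    rw [dif_pos (primeTo_mul.2 ⟨hI, hJ⟩), dif_pos hI, dif_pos hJ]
    rfl
  · intro I J hI hJ
    show (if h : PrimeTo m I then rmk m ⟨I, h⟩ else 1) =
      (if h : PrimeTo m J then rmk m ⟨J, h⟩ else 1) ↔ _
    rw [dif_pos hI, dif_pos hJ, rmk_eq]

section

variable {G : Type} [CommGroup G] [Fintype G]

/-- a character of the group of ring classes as a Hecke character -/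
noncomputable def ringChar {m : ℕ} (hm : m ≠ 0) (c : Ideal (𝓞 K) → G) (h1 : c ⊤ = 1)
    (hmul : ∀ I J, PrimeTo m I → PrimeTo m J → c (I * J) = c I * c J)
    (heq : ∀ I J, PrimeTo m I → PrimeTo m J → (c I = c J ↔ Req m I J))
    (χ : AddChar (Additive G) ℂ) : HeckeChar K := by
  classical
  exact
  { cond := span {(m : 𝓞 K)}
    cond_ne := by
      rw [Ne, span_singleton_eq_bot]
      exact_mod_cast hm
    toFun := fun I => if PrimeTo m I then χ (Additive.ofMul (c I)) else 0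
    map_mul' := by
      intro I J
      by_cases hI : PrimeTo m I
      · by_cases hJ : PrimeTo m J
        · rw [if_pos hI, if_pos hJ, if_pos (primeTo_mul.2 ⟨hI, hJ⟩), hmul I J hI hJ, ofMul_mul,
            AddChar.map_add_eq_mul]
        · rw [if_neg hJ, if_neg (fun h => hJ (primeTo_mul.1 h).2), mul_zero]
      · rw [if_neg hI, if_neg (fun h => hI (primeTo_mul.1 h).1), zero_mul]
    norm_eq := by
      intro I hI hI'
      rw [if_pos (show PrimeTo m I from ⟨hI, hI'⟩)]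
      exact AddChar.norm_apply χ _
    eq_zero := by
      intro I hI
      rw [if_neg (fun h : PrimeTo m I => hI h.2)]
    n := 0
    t := 0
    principal := by
      intro x hx hx1
      have hr : RatMod m x := ratMod_one_of_sub_mem hx1
      have hp : PrimeTo m (span {x}) := ⟨by rw [Ne, span_singleton_eq_bot]; exact hx, hr.sup_top⟩
      have h2 : c (span {x}) = c ⊤ := by
        rw [heq _ _ hp (primeTo_top m)]
        exact ⟨1, x, one_ne_zero, hx, ratMod_one m, hr, by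
          rw [span_singleton_mul_span_singleton, one_mul, Ideal.mul_top]⟩
      rw [if_pos hp, h2, h1]
      simp [infChar] }

end

/-- **The characters of the ring class group.** -/
theorem ring_characters (K : Type) [Field K] [NumberField K] {m : ℕ} (hm : m ≠ 0)
    {B : Ideal (𝓞 K)} (hB : B ≠ ⊥) (hBm : B ⊔ span {(m : 𝓞 K)} = ⊤) :
    ∃ (ι : Type) (_ : Fintype ι) (χ : ι → HeckeChar K) (c : ι → ℝ),
      (∀ i, (χ i).cond = span {(m : 𝓞 K)} ∧ (χ i).n = 0 ∧ (χ i).t = 0) ∧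
      (∀ i, ¬ (χ i).Nontriv → 0 < c i) ∧ (∃ i, ¬ (χ i).Nontriv) ∧
      (∀ I : Ideal (𝓞 K), I ≠ ⊥ → I ⊔ span {(m : 𝓞 K)} = ⊤ →
        ∑ i, c i * ((χ i).toFun I).re =
          (open scoped Classical in (if Req m I B then 1 else 0)) +
          (open scoped Classical in (if Req m (I * B) ⊤ then 1 else 0))) := by
  classical
  obtain ⟨G, _, _, c, h1, hmul, heq⟩ := exists_group K hm
  have hB' : PrimeTo m B := ⟨hB, hBm⟩
  refine ⟨AddChar (Additive G) ℂ, inferInstance, fun χ => ringChar hm c h1 hmul heq χ,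
    fun χ => 2 * (χ (Additive.ofMul (c B))).re / Fintype.card G, fun χ => ⟨rfl, rfl, rfl⟩, ?_, ?_, ?_⟩
  · intro χ hχ
    have h2 : χ (Additive.ofMul (c B)) = 1 := by
      by_contra hc
      exact hχ ⟨B, hB, hBm, by
        show (if PrimeTo m B then χ (Additive.ofMul (c B)) else 0) ≠ 1
        rw [if_pos hB']
        exact hc⟩
    show 0 < 2 * (χ (Additive.ofMul (c B))).re / Fintype.card G
    rw [h2, Complex.one_re]
    have : (0 : ℝ) < Fintype.card G := by exact_mod_cast Fintype.card_pos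
    positivity
  · refine ⟨1, ?_⟩
    rintro ⟨I, hI, hI', h⟩
    apply h
    show (if PrimeTo m I then (1 : AddChar (Additive G) ℂ) (Additive.ofMul (c I)) else 0) = 1
    rw [if_pos ⟨hI, hI'⟩]
    exact AddChar.one_apply _
  · intro I hI hI'
    have hI2 : PrimeTo m I := ⟨hI, hI'⟩
    have hcard : (Fintype.card G : ℝ) ≠ 0 := by exact_mod_cast Fintype.card_ne_zero
    have hval : ∀ χ : AddChar (Additive G) ℂ, (ringChar hm c h1 hmul heq χ).toFun I =
        χ (Additive.ofMul (c I)) := fun χ => if_pos hI2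
    -- the sum over the characters
    have hs : ∀ g : G, ∑ χ : AddChar (Additive G) ℂ, (χ (Additive.ofMul g)).re =
        if g = 1 then (Fintype.card G : ℝ) else 0 := by
      intro g
      have h2 := AddChar.sum_apply_eq_ite (Additive.ofMul g)
      have h3 := congrArg Complex.re h2
      rw [Complex.re_sum] at h3
      rw [h3]
      have h4 : Additive.ofMul g = 0 ↔ g = 1 := Iff.rfl
      by_cases hg : g = 1
      · rw [if_pos hg, if_pos (h4.2 hg)]
        simp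
      · rw [if_neg hg, if_neg (fun h => hg (h4.1 h))]
        rfl
    have hre : ∀ χ : AddChar (Additive G) ℂ,
        2 * (χ (Additive.ofMul (c B))).re * (χ (Additive.ofMul (c I))).re =
          (χ (Additive.ofMul (c I * (c B)⁻¹))).re + (χ (Additive.ofMul (c I * c B))).re := by
      intro χ
      have h2 : χ (Additive.ofMul (c I * (c B)⁻¹)) =
          χ (Additive.ofMul (c I)) * (starRingEnd ℂ) (χ (Additive.ofMul (c B))) := by
        rw [ofMul_mul, AddChar.map_add_eq_mul, ofMul_inv, AddChar.map_neg_eq_conj]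
      have h3 : χ (Additive.ofMul (c I * c B)) =
          χ (Additive.ofMul (c I)) * χ (Additive.ofMul (c B)) := by
        rw [ofMul_mul, AddChar.map_add_eq_mul]
      rw [h2, h3, Complex.mul_re, Complex.mul_re, Complex.conj_re, Complex.conj_im]
      ring
    have hR1 : Req m I B ↔ c I * (c B)⁻¹ = 1 := by
      rw [mul_inv_eq_one, heq I B hI2 hB']
    have hR2 : Req m (I * B) ⊤ ↔ c I * c B = 1 := by
      rw [← heq _ _ (primeTo_mul.2 ⟨hI2, hB'⟩) (primeTo_top m), h1, hmul I B hI2 hB']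
    calc ∑ χ : AddChar (Additive G) ℂ, 2 * (χ (Additive.ofMul (c B))).re / Fintype.card G *
          ((ringChar hm c h1 hmul heq χ).toFun I).re
        = ∑ χ : AddChar (Additive G) ℂ, ((χ (Additive.ofMul (c I * (c B)⁻¹))).re +
            (χ (Additive.ofMul (c I * c B))).re) / Fintype.card G := by
          refine Finset.sum_congr rfl fun χ _ => ?_
          rw [hval, ← hre]
          ring
      _ = (if Req m I B then 1 else 0) + (if Req m (I * B) ⊤ then 1 else 0) := by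
          rw [← Finset.sum_div, Finset.sum_add_distrib, hs, hs, add_div]
          congr 1
          · by_cases h : Req m I B
            · rw [if_pos h, if_pos (hR1.1 h), div_self hcard]
            · rw [if_neg h, if_neg (fun h' => h (hR1.2 h')), zero_div]
          · by_cases h : Req m (I * B) ⊤
            · rw [if_pos h, if_pos (hR2.1 h), div_self hcard]
            · rw [if_neg h, if_neg (fun h' => h (hR2.2 h')), zero_div]

end Pool.Agent.Mukai.RQ
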