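import Pool.Agent.Work.MP_1e087a_ag.Q.M2D
import Pool.Agent.Work.MP_1e087a_ag.Q.M1
import Pool.Agent.Work.MP_1e087a_ag.Q.Odd

set_option autoImplicit false

/-!
Primes of prime norm in ring classes, with a condition on the norm.
-/

namespace Pool.Agent.Mukai.RQ

open NumberField Ideal Filter Topology IsDedekindDomain
open Pool.Agent.Work.MP_2b9663_nt Pool.Agent.Work.MP_2b9663_nt.He

variable {K : Type} [Field K] [NumberField K]

lemma conj_nontriv {ψ : HeckeChar K} (h : ¬ (ψ.conj).Nontriv) : ¬ ψ.Nontriv := by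
  rintro ⟨a, ha, ha', h1⟩
  refine h ⟨a, ha, ha', ?_⟩
  intro h2
  apply h1
  have h3 : (starRingEnd ℂ) (ψ a) = 1 := h2
  have h4 := congrArg (starRingEnd ℂ) h3
  rwa [Complex.conj_conj, map_one] at h4

/-- **Primes in ring classes with a condition on the norm.** -/
theorem exists_prime (hreal : ∀ w : InfinitePlace K, w.IsReal) {m M0 : ℕ} (hm : m ≠ 0)
    (hM0 : 1 < M0) (ψ : DirichletCharacter ℂ M0) (hψ : ψ.Odd) {x : 𝓞 K}
    (hx : x - 1 ∈ span {((m * M0 : ℕ) : 𝓞 K)}) (hneg : Algebra.norm ℤ x < 0)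
    {B : Ideal (𝓞 K)} (hB0 : B ≠ ⊥) (hB : B ⊔ span {(m : 𝓞 K)} = ⊤) (X : ℕ) :
    ∃ v : HeightOneSpectrum (𝓞 K), (absNorm v.asIdeal).Prime ∧ X < absNorm v.asIdeal ∧
      ((absNorm v.asIdeal : ℕ) : ZMod M0) ≠ 1 ∧ (Req m v.asIdeal B ∨ Req m (v.asIdeal * B) ⊤) := by
  classical
  obtain ⟨ι, _, χ, c, h1, h2, ⟨i0, h3⟩, h4⟩ := ring_characters K hm hB0 hB
  refine exists_prime_family hreal hm hM0 ψ hψ hx hneg
    (Sum.elim χ fun i => (χ i).conj) (Sum.elim (fun i => ((c i / 2 : ℝ) : ℂ))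
      fun i => ((c i / 2 : ℝ) : ℂ)) ?_ ?_ ⟨Sum.inl i0, h3⟩
    (fun I => Req m I B ∨ Req m (I * B) ⊤) ?_ X
  · rintro (i | i)
    · exact h1 i
    · refine ⟨(h1 i).1, ?_, ?_⟩
      · show -(χ i).n = 0
        rw [(h1 i).2.1, neg_zero]
      · show -(χ i).t = 0
        rw [(h1 i).2.2, neg_zero]
  · rintro (i | i) hi
    · show 0 < ((c i / 2 : ℝ) : ℂ).re
      rw [Complex.ofReal_re]
      exact half_pos (h2 i hi)
    · show 0 < ((c i / 2 : ℝ) : ℂ).re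
      rw [Complex.ofReal_re]
      exact half_pos (h2 i (conj_nontriv hi))
  · intro I hI hI' hP
    rw [not_or] at hP
    have h5 := h4 I hI hI'
    rw [if_neg hP.1, if_neg hP.2, add_zero] at h5
    rw [Fintype.sum_sum_type, ← Finset.sum_add_distrib]
    have h6 : ∀ i, (Sum.elim (fun i => ((c i / 2 : ℝ) : ℂ)) (fun i => ((c i / 2 : ℝ) : ℂ))
        (Sum.inl i : ι ⊕ ι)) * ((Sum.elim χ fun i => (χ i).conj) (Sum.inl i)).toFun I +
        (Sum.elim (fun i => ((c i / 2 : ℝ) : ℂ)) (fun i => ((c i / 2 : ℝ) : ℂ))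
        (Sum.inr i : ι ⊕ ι)) * ((Sum.elim χ fun i => (χ i).conj) (Sum.inr i)).toFun I =
        ((c i * ((χ i).toFun I).re : ℝ) : ℂ) := by
      intro i
      show ((c i / 2 : ℝ) : ℂ) * (χ i).toFun I + ((c i / 2 : ℝ) : ℂ) *
        (starRingEnd ℂ) ((χ i).toFun I) = _
      rw [← mul_add, Complex.add_conj]
      push_cast
      ring
    rw [Finset.sum_congr rfl fun i _ => h6 i, ← Complex.ofReal_sum, h5, Complex.ofReal_zero]

end Pool.Agent.Mukai.RQ
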