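import Pool.Agent.Work.MP_2b9663_nt.He.MeanK
import Pool.Agent.Work.MP_2b9663_nt.Ch.Arg

set_option autoImplicit false

/-!
The mean values of the real and of the imaginary parts of a nontrivial Hecke character over the
primes are zero; primes whose norm is not a prime number are negligible.
-/

namespace Pool.Agent.Mukai.RQ

open NumberField Ideal Filter Topology IsDedekindDomain
open Pool.Agent.Work.MP_2b9663_nt Pool.Agent.Work.MP_2b9663_nt.He

variable {K : Type} [Field K] [NumberField K] (ψ : HeckeChar K)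

lemma hP_continuous (v : HeightOneSpectrum (𝓞 K)) :
    Continuous fun ε : ℝ => hP ψ ((1 + ε : ℝ) : ℂ) v.asIdeal := by
  unfold hP
  refine continuous_const.mul ?_
  have h0 : (absNorm v.asIdeal : ℂ) ≠ 0 := by
    have := qn_pos v
    unfold qn at this
    exact_mod_cast this.ne'
  refine Continuous.const_cpow ?_ (Or.inl h0)
  exact (Complex.continuous_ofReal.comp (continuous_const.add continuous_id)).neg

lemma lL_continuousOn (r : ℝ) :
    ContinuousOn (fun ε : ℝ => lL ψ ((1 + ε : ℝ) : ℂ)) (Set.Ioo 0 r) := by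
  intro ε hε
  have hε0 := hε.1
  have key : ContinuousOn (fun ε : ℝ => ∑' v : HeightOneSpectrum (𝓞 K),
      Complex.log (1 - hP ψ ((1 + ε : ℝ) : ℂ) v.asIdeal)) (Set.Ioi (ε / 2)) := by
    refine continuousOn_tsum (u := fun v : HeightOneSpectrum (𝓞 K) =>
      3 / 2 * qn v ^ (-(1 + ε / 2))) ?_ ?_ ?_
    · intro v x hx
      have hx' : 0 < x := lt_trans (by linarith) hx
      refine ContinuousAt.continuousWithinAt (ContinuousAt.clog ?_ ?_)
      · exact (continuous_const.sub (hP_continuous ψ v)).continuousAt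
      · left
        have h1 := hP_half ψ (re_one_add hx') v
        have h2 := (Complex.abs_re_le_norm _).trans h1
        rw [Complex.sub_re, Complex.one_re]
        linarith [(abs_le.1 h2).2]
    · exact (qn_summable (K := K) (σ := 1 + ε / 2) (by linarith)).mul_left _
    · intro v x hx
      have hx0 : ε / 2 < x := hx
      have hx' : 0 < x := by linarith
      have h1 := hP_half ψ (re_one_add hx') v
      have h2 : ‖Complex.log (1 + (-hP ψ ((1 + x : ℝ) : ℂ) v.asIdeal))‖ ≤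
          3 / 2 * ‖-hP ψ ((1 + x : ℝ) : ℂ) v.asIdeal‖ :=
        Complex.norm_log_one_add_half_le_self (by rw [norm_neg]; exact h1)
      rw [← sub_eq_add_neg, norm_neg] at h2
      refine h2.trans (mul_le_mul_of_nonneg_left ?_ (by norm_num))
      have h3 := norm_hP_prime ψ (s := ((1 + x : ℝ) : ℂ)) (by
        rw [Complex.ofReal_re]; linarith) v
      refine h3.trans ?_
      rw [Complex.ofReal_re]
      exact Real.rpow_le_rpow_of_exponent_le (by linarith [two_le_qn v]) (by linarith)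
  unfold lL
  exact ((key.continuousAt (Ioi_mem_nhds (by linarith))).neg).continuousWithinAt

/-- the sum over the primes is bounded near `1`, as a complex number -/
theorem TP_norm_bounded (hnt : ψ.Nontriv) :
    ∃ C : ℝ, ∀ᶠ ε : ℝ in 𝓝[>] 0, ‖TP ψ ((1 + ε : ℝ) : ℂ)‖ ≤ C := by
  obtain ⟨F, hF, hF1, hFe⟩ := exists_F ψ hnt
  have h1 : Tendsto (fun ε : ℝ => F ((1 + ε : ℝ) : ℂ) / F 1) (𝓝[>] 0) (𝓝 (F 1 / F 1)) :=
    (hF.continuousAt.tendsto.comp tendsto_one_add).div_const _
  rw [div_self hF1] at h1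
  have h2 : ∀ᶠ ε : ℝ in 𝓝[>] 0, ‖F ((1 + ε : ℝ) : ℂ) / F 1 - 1‖ ≤ 1 / 2 := by
    have h3 := (tendsto_iff_norm_sub_tendsto_zero.1 h1).eventually
      (gt_mem_nhds (show (0 : ℝ) < 1 / 2 by norm_num))
    exact h3.mono fun ε h => h.le
  obtain ⟨r, hr, hr'⟩ := mem_nhdsGT_iff_exists_Ioo_subset.1 h2
  obtain ⟨C, hC⟩ := log_bounded (l := fun ε : ℝ => lL ψ ((1 + ε : ℝ) : ℂ)) hr
    (lL_continuousOn ψ r) hF1 (fun ε hε => by
      have h4 : ‖F ((1 + ε : ℝ) : ℂ) / F 1 - 1‖ ≤ 1 / 2 := hr' hε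
      rw [hFe _ (re_one_add hε.1), LH_eq_exp ψ (re_one_add hε.1)] at h4
      exact h4)
  refine ⟨C + PK K, ?_⟩
  filter_upwards [Ioo_mem_nhdsGT hr] with ε hε
  have h5 := lL_sub ψ (re_one_add hε.1)
  have h6 := hC ε hε
  calc ‖TP ψ ((1 + ε : ℝ) : ℂ)‖ = ‖lL ψ ((1 + ε : ℝ) : ℂ) -
        (lL ψ ((1 + ε : ℝ) : ℂ) - TP ψ ((1 + ε : ℝ) : ℂ))‖ := by
        congr 1; ring
    _ ≤ C + PK K := (norm_sub_le _ _).trans (add_le_add h6 h5)

lemma TP_im {ε : ℝ} (hε : 0 < ε) :
    (TP ψ ((1 + ε : ℝ) : ℂ)).im = SR (fun v => (ψ v.asIdeal).im) ε := by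
  have hs := re_one_add hε
  have h2 := (primes_summable (hP_summable ψ hs)).of_norm
  have h2' := Complex.hasSum_im h2.hasSum
  unfold TP SR
  rw [← h2'.tsum_eq]
  refine tsum_congr fun v => ?_
  unfold hP
  have h6 : (absNorm v.asIdeal : ℂ) ^ (-((1 + ε : ℝ) : ℂ)) =
      ((qn v ^ (-(1 + ε)) : ℝ) : ℂ) := by
    rw [Complex.ofReal_cpow (qn_pos v).le]
    unfold qn
    push_cast
    rfl
  rw [h6, Complex.im_mul_ofReal]

/-- the real part has mean value zero -/
theorem mean_re (hnt : ψ.Nontriv) :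
    Tendsto (MR fun v => (ψ v.asIdeal).re) (𝓝[>] 0) (𝓝 0) := by
  obtain ⟨C, hC⟩ := TP_norm_bounded ψ hnt
  refine tendsto_div_log (C := C) ?_
  filter_upwards [hC, eventually_unit] with ε h4 h5
  rw [← TP_re _ h5.1]
  exact (Complex.abs_re_le_norm _).trans h4

/-- the imaginary part has mean value zero -/
theorem mean_im (hnt : ψ.Nontriv) :
    Tendsto (MR fun v => (ψ v.asIdeal).im) (𝓝[>] 0) (𝓝 0) := by
  obtain ⟨C, hC⟩ := TP_norm_bounded ψ hnt
  refine tendsto_div_log (C := C) ?_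
  filter_upwards [hC, eventually_unit] with ε h4 h5
  rw [← TP_im _ h5.1]
  exact (Complex.abs_im_le_norm _).trans h4

lemma re_BK : BK fun v => (ψ v.asIdeal).re :=
  ⟨1, fun v => (Complex.abs_re_le_norm _).trans (ψ.norm_le_one v.ne_bot)⟩

lemma im_BK : BK fun v => (ψ v.asIdeal).im :=
  ⟨1, fun v => (Complex.abs_im_le_norm _).trans (ψ.norm_le_one v.ne_bot)⟩

/-- the mean value of `Re (c ψ)` for a nontrivial character -/
theorem mean_mul (hnt : ψ.Nontriv) (c : ℂ) :
    Tendsto (MR fun v => (c * ψ v.asIdeal).re) (𝓝[>] 0) (𝓝 0) := by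
  have h1 := ((mean_re ψ hnt).const_mul c.re).add ((mean_im ψ hnt).const_mul (-c.im))
  rw [mul_zero, mul_zero, add_zero] at h1
  refine h1.congr' ?_
  filter_upwards [eventually_unit] with ε hε
  rw [← MR_const_mul, ← MR_const_mul,
    ← MR_add ((re_BK ψ).const_mul _) ((im_BK ψ).const_mul _) hε.1]
  congr 1
  funext v
  rw [Complex.mul_re]
  ring

/-- the mean value of `Re (c ψ)` for a trivial character -/
theorem mean_triv (hnt : ¬ ψ.Nontriv) (c : ℂ) :
    Tendsto (MR fun v => (c * ψ v.asIdeal).re) (𝓝[>] 0) (𝓝 c.re) := by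
  classical
  have h1 := (MR_one (K := K)).const_mul c.re
  rw [mul_one] at h1
  have h2 : Tendsto (MR fun _ : HeightOneSpectrum (𝓞 K) => c.re * 1) (𝓝[>] 0) (𝓝 c.re) := by
    refine h1.congr fun ε => ?_
    rw [MR_const_mul]
  refine MR_congr (BK.one.const_mul c.re) ⟨‖c‖, fun v => ?_⟩
    (finite_not_coprime K ψ.cond_ne).toFinset (fun v hv => ?_) h2
  · refine (Complex.abs_re_le_norm _).trans ?_
    rw [norm_mul]
    exact mul_le_of_le_one_right (norm_nonneg _) (ψ.norm_le_one v.ne_bot)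
  · rw [Set.Finite.mem_toFinset, Set.mem_ofPred_eq, not_not] at hv
    have h3 : ψ v.asIdeal = 1 := by
      by_contra h4
      exact hnt ⟨v.asIdeal, v.ne_bot, hv, h4⟩
    rw [h3, mul_one, mul_one]

end Pool.Agent.Mukai.RQ
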