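import Pool.Agent.Work.MP_1e087a_ag.Q.M2A

set_option autoImplicit false

/-!
The primes whose norm is not a prime number are negligible.
-/

namespace Pool.Agent.Mukai.RQ

open NumberField Ideal Filter Topology IsDedekindDomain
open Pool.Agent.Work.MP_2b9663_nt Pool.Agent.Work.MP_2b9663_nt.He

variable {K : Type} [Field K] [NumberField K]

/-- the rational prime below a prime -/
noncomputable def pb (v : HeightOneSpectrum (𝓞 K)) : ℕ := absNorm (under ℤ v.asIdeal)

lemma span_pb (v : HeightOneSpectrum (𝓞 K)) : span {(pb v : ℤ)} = under ℤ v.asIdeal :=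
  Int.ideal_span_absNorm_eq_self _

lemma under_ne_bot (v : HeightOneSpectrum (𝓞 K)) : under ℤ v.asIdeal ≠ ⊥ :=
  Ideal.IsIntegral.comap_ne_bot ℤ v.ne_bot

lemma pb_prime (v : HeightOneSpectrum (𝓞 K)) : (pb v).Prime := by
  have := v.isPrime
  have h0 : pb v ≠ 0 := by
    intro h
    exact under_ne_bot v (absNorm_eq_zero_iff.1 h)
  have h1 : (span {(pb v : ℤ)}).IsPrime := by
    rw [span_pb]
    infer_instance
  rw [span_singleton_prime (by exact_mod_cast h0)] at h1
  exact Nat.prime_iff_prime_int.2 h1

lemma absNorm_eq_pb (v : HeightOneSpectrum (𝓞 K)) :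
    ∃ f : ℕ, f ≠ 0 ∧ absNorm v.asIdeal = pb v ^ f := by
  have := v.isPrime
  have : v.asIdeal.LiesOver (span {(pb v : ℤ)}) := ⟨span_pb v⟩
  refine ⟨_, ?_, absNorm_eq_pow_inertiaDeg' v.asIdeal (pb_prime v)⟩
  intro h0
  have h1 := absNorm_eq_pow_inertiaDeg' v.asIdeal (pb_prime v)
  rw [h0, pow_zero, absNorm_eq_one_iff] at h1
  exact v.isPrime.ne_top h1

lemma fibre_card (T : Finset (HeightOneSpectrum (𝓞 K))) (p : ℕ) [DecidableEq ℕ] :
    (T.filter fun v => pb v = p).card ≤ Module.finrank ℚ K := by
  classical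
  rcases (T.filter fun v => pb v = p).eq_empty_or_nonempty with h | ⟨w, hw⟩
  · rw [h]
    exact Nat.zero_le _
  · have hp : p.Prime := by
      rw [← (Finset.mem_filter.1 hw).2]
      exact pb_prime w
    have hP : (span {(p : ℤ)} : Ideal ℤ) ≠ ⊥ := by
      rw [Ne, span_singleton_eq_bot]
      exact_mod_cast hp.ne_zero
    have hpr : (span {(p : ℤ)} : Ideal ℤ).IsPrime := by
      rw [span_singleton_prime (by exact_mod_cast hp.ne_zero)]
      exact Nat.prime_iff_prime_int.1 hp
    have : (span {(p : ℤ)} : Ideal ℤ).IsMaximal := hpr.isMaximal hP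
    refine le_trans ?_ (card_primesOverFinset_le_finrank (𝓞 K) ℚ K hP)
    refine Finset.card_le_card_of_injOn (fun v => v.asIdeal) (fun v hv => ?_) (fun a _ b _ h =>
      HeightOneSpectrum.ext h)
    have hv2 := (Finset.mem_filter.1 hv).2
    show v.asIdeal ∈ _
    refine (IsDedekindDomain.mem_primesOverFinset_iff hP _).2 ⟨v.isPrime, ⟨?_⟩⟩
    rw [← hv2]
    exact span_pb v

open scoped Classical in
/-- the primes whose norm is not a prime number -/
lemma nonprime_summable : Summable fun v : HeightOneSpectrum (𝓞 K) =>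
    if (absNorm v.asIdeal).Prime then (0 : ℝ) else 1 / (absNorm v.asIdeal : ℝ) := by
  have hsum : Summable fun k : ℕ => 1 / (k : ℝ) ^ 2 := Real.summable_one_div_nat_pow.2 one_lt_two
  refine summable_of_sum_le (c := Module.finrank ℚ K * ∑' k : ℕ, 1 / (k : ℝ) ^ 2) (fun v => ?_)
    fun T => ?_
  · dsimp only
    split_ifs
    · exact le_refl _
    · positivity
  · calc ∑ v ∈ T, (if (absNorm v.asIdeal).Prime then (0 : ℝ) else 1 / (absNorm v.asIdeal : ℝ))
        ≤ ∑ v ∈ T, 1 / (pb v : ℝ) ^ 2 := by
          refine Finset.sum_le_sum fun v _ => ?_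
          split_ifs with h
          · positivity
          · obtain ⟨f, hf, hN⟩ := absNorm_eq_pb v
            have hf2 : 2 ≤ f := by
              rcases Nat.lt_or_ge f 2 with h2 | h2
              · exfalso
                have h3 : f = 1 := by omega
                rw [h3, pow_one] at hN
                rw [hN] at h
                exact h (pb_prime v)
              · exact h2
            have hp1 : (1 : ℝ) ≤ pb v := by exact_mod_cast (pb_prime v).one_lt.le
            rw [hN]
            push_cast
            exact one_div_le_one_div_of_le (by positivity) (pow_le_pow_right₀ hp1 hf2)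
      _ = ∑ p ∈ T.image pb, ((T.filter fun v => pb v = p).card : ℝ) * (1 / (p : ℝ) ^ 2) := by
          rw [Finset.sum_comp (fun p : ℕ => 1 / (p : ℝ) ^ 2) pb]
          refine Finset.sum_congr rfl fun p _ => ?_
          rw [nsmul_eq_mul]
      _ ≤ ∑ p ∈ T.image pb, (Module.finrank ℚ K : ℝ) * (1 / (p : ℝ) ^ 2) := by
          refine Finset.sum_le_sum fun p _ => ?_
          refine mul_le_mul_of_nonneg_right ?_ (by positivity)
          exact_mod_cast fibre_card T p
      _ = Module.finrank ℚ K * ∑ p ∈ T.image pb, 1 / (p : ℝ) ^ 2 := by rw [Finset.mul_sum]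
      _ ≤ _ := by
          refine mul_le_mul_of_nonneg_left ?_ (by positivity)
          exact hsum.sum_le_tsum _ fun k _ => by positivity

/-- the mean values agree when the functions agree at the primes of prime norm outside a finite
set -/
theorem MR_congr_prime {c d : HeightOneSpectrum (𝓞 K) → ℝ} (hc : BK c) (hd : BK d)
    (T : Finset (HeightOneSpectrum (𝓞 K)))
    (h : ∀ v, v ∉ T → (absNorm v.asIdeal).Prime → c v = d v) {κ : ℝ}
    (hlim : Tendsto (MR c) (𝓝[>] 0) (𝓝 κ)) : Tendsto (MR d) (𝓝[>] 0) (𝓝 κ) := by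
  classical
  obtain ⟨B, hB⟩ := hc
  obtain ⟨C, hC⟩ := hd
  -- the function changed at the primes of nonprime norm
  let e : HeightOneSpectrum (𝓞 K) → ℝ := fun v => if (absNorm v.asIdeal).Prime then c v else d v
  have he : BK e := ⟨max B C, fun v => by
    show |if (absNorm v.asIdeal).Prime then c v else d v| ≤ _
    split_ifs
    · exact (hB v).trans (le_max_left _ _)
    · exact (hC v).trans (le_max_right _ _)⟩
  have h1 : Tendsto (MR fun v => e v + (-1) * c v) (𝓝[>] 0) (𝓝 0) := by
    refine tendsto_div_log (C := ∑' v : HeightOneSpectrum (𝓞 K), (C + B) *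
      if (absNorm v.asIdeal).Prime then (0 : ℝ) else 1 / (absNorm v.asIdeal : ℝ)) ?_
    filter_upwards [eventually_unit] with ε hε
    unfold SR
    have hs := (nonprime_summable (K := K)).mul_left (C + B)
    have hle : ∀ v : HeightOneSpectrum (𝓞 K),
        ‖(e v + (-1) * c v) * qn v ^ (-(1 + ε))‖ ≤ (C + B) *
          (if (absNorm v.asIdeal).Prime then (0 : ℝ) else 1 / (absNorm v.asIdeal : ℝ)) := by
      intro v
      by_cases hv : (absNorm v.asIdeal).Prime
      · have : e v = c v := if_pos hv
        rw [this, if_pos hv]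
        simp
      · have h2 : e v = d v := if_neg hv
        rw [h2, if_neg hv, norm_mul, Real.norm_eq_abs, Real.norm_of_nonneg (qpow_nonneg v _)]
        have h3 : |d v + (-1) * c v| ≤ C + B := by
          refine (abs_add_le _ _).trans ?_
          rw [abs_mul, abs_neg, abs_one, one_mul]
          exact add_le_add (hC v) (hB v)
        have h4 : qn v ^ (-(1 + ε)) ≤ 1 / (absNorm v.asIdeal : ℝ) := by
          have h5 : (1 : ℝ) / (absNorm v.asIdeal : ℝ) = qn v ^ (-1 : ℝ) := by
            unfold qn
            rw [Real.rpow_neg_one, one_div]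
          rw [h5]
          exact Real.rpow_le_rpow_of_exponent_le (by linarith [two_le_qn v]) (by linarith [hε.1])
        exact mul_le_mul h3 h4 (qpow_nonneg v _) ((abs_nonneg _).trans h3)
    have hn := Summable.of_nonneg_of_le (fun v => norm_nonneg _) hle hs
    rw [← Real.norm_eq_abs]
    exact (norm_tsum_le_tsum_norm hn).trans (hn.tsum_le_tsum hle hs)
  have h2 := hlim.add h1
  rw [add_zero] at h2
  have h3 : Tendsto (MR e) (𝓝[>] 0) (𝓝 κ) := by
    refine h2.congr' ?_
    filter_upwards [eventually_unit] with ε hε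
    rw [← MR_add ⟨B, hB⟩ (he.add (BK.const_mul (-1) ⟨B, hB⟩)) hε.1]
    congr 1
    funext v
    ring
  refine MR_congr he ⟨C, hC⟩ T (fun v hv => ?_) h3
  show (if (absNorm v.asIdeal).Prime then c v else d v) = d v
  split_ifs with hp
  · exact h v hv hp
  · rfl

end Pool.Agent.Mukai.RQ
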