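import Pool.Agent.Work.MP_1e087a_ag.Q.M2B

set_option autoImplicit false

/-!
The Hecke character attached to an odd Dirichlet character and the norm, for a totally real field.
-/

namespace Pool.Agent.Mukai.RQ

open NumberField Ideal Filter Topology IsDedekindDomain
open Pool.Agent.Work.MP_2b9663_nt Pool.Agent.Work.MP_2b9663_nt.He

variable {K : Type} [Field K] [NumberField K]

lemma sup_top_iff_coprime {M0 : ℕ} {I : Ideal (𝓞 K)} (hI : I ≠ ⊥) :
    I ⊔ span {(M0 : 𝓞 K)} = ⊤ ↔ (absNorm I).Coprime M0 := by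
  constructor
  · intro h
    rw [Nat.coprime_iff_gcd_eq_one]
    by_contra hg
    obtain ⟨p, hp, hpd⟩ := Nat.exists_prime_and_dvd hg
    have hpI : p ∣ absNorm I := hpd.trans (Nat.gcd_dvd_left _ _)
    have hpM : p ∣ M0 := hpd.trans (Nat.gcd_dvd_right _ _)
    have h1 : (1 : 𝓞 K) ∈ I ⊔ span {(M0 : 𝓞 K)} := by rw [h]; trivial
    obtain ⟨a, ha, b, hb, hab⟩ := Submodule.mem_sup.1 h1
    obtain ⟨c, rfl⟩ := mem_span_singleton'.1 hb
    have hfin : Finite (𝓞 K ⧸ I) := Ideal.finiteQuotientOfFreeOfNeBot I hI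
    have hcard : p ∣ Nat.card (𝓞 K ⧸ I) := by
      rw [absNorm_apply, Submodule.cardQuot_apply] at hpI
      exact hpI
    have := Fact.mk hp
    obtain ⟨x, hx⟩ := exists_prime_addOrderOf_dvd_card' p hcard
    have hMx : (M0 : 𝓞 K ⧸ I) * x = 0 := by
      rw [← nsmul_eq_mul]
      exact addOrderOf_dvd_iff_nsmul_eq_zero.1 (hx ▸ hpM)
    have h2 : (1 : 𝓞 K ⧸ I) = Ideal.Quotient.mk I c * (M0 : 𝓞 K ⧸ I) := by
      rw [← map_one (Ideal.Quotient.mk I), ← hab, map_add, map_mul, map_natCast,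
        Ideal.Quotient.eq_zero_iff_mem.2 ha, zero_add]
    have h3 : x = 0 := by
      rw [← one_mul x, h2, mul_assoc, hMx, mul_zero]
    rw [h3, addOrderOf_zero] at hx
    exact hp.one_lt.ne hx
  · intro h
    have h1 : IsCoprime ((absNorm I : ℤ)) (M0 : ℤ) := Nat.isCoprime_iff_coprime.2 h
    obtain ⟨u, v, huv⟩ := h1
    rw [eq_top_iff_one]
    have h2 : (1 : 𝓞 K) = (u : 𝓞 K) * (absNorm I : 𝓞 K) + (v : 𝓞 K) * (M0 : 𝓞 K) := by
      have := congrArg (Int.cast : ℤ → 𝓞 K) huv
      push_cast at this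
      exact this.symm
    rw [h2]
    exact add_mem (mem_sup_left (I.mul_mem_left _ (absNorm_mem I)))
      (mem_sup_right (mul_mem_left _ _ (mem_span_singleton_self _)))

/-- the norm of an integer congruent to `1` -/
lemma norm_mod {M0 : ℕ} {x : 𝓞 K} (hx : x - 1 ∈ span {(M0 : 𝓞 K)}) :
    ((Algebra.norm ℤ x : ℤ) : ZMod M0) = 1 := by
  classical
  obtain ⟨y, hy⟩ := mem_span_singleton'.1 hx
  have hxy : x = 1 + (M0 : ℤ) • y := by
    rw [zsmul_eq_mul]
    push_cast
    rw [mul_comm, hy]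
    ring
  let b := RingOfIntegers.basis K
  rw [Algebra.norm_eq_matrix_det b, hxy, map_add, map_one, map_smul]
  have h1 := (Int.castRingHom (ZMod M0)).map_det (1 + (M0 : ℤ) • Algebra.leftMulMatrix b y)
  have h2 : ((Int.castRingHom (ZMod M0)).mapMatrix (1 + (M0 : ℤ) • Algebra.leftMulMatrix b y)) =
      1 := by
    rw [map_add, map_one]
    have : (Int.castRingHom (ZMod M0)).mapMatrix ((M0 : ℤ) • Algebra.leftMulMatrix b y) = 0 := by
      ext i j
      show ((((M0 : ℤ) • Algebra.leftMulMatrix b y) i j : ℤ) : ZMod M0) = 0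
      rw [Matrix.smul_apply, smul_eq_mul]
      push_cast
      rw [ZMod.natCast_self, zero_mul]
    rw [this, add_zero]
  rw [h2, Matrix.det_one] at h1
  exact h1

/-- the character of the infinite type `(1, 0)` is the sign of the norm -/
lemma infChar_real (hreal : ∀ w : InfinitePlace K, w.IsReal) {x : K} (hx : x ≠ 0) :
    infChar (1 : InfinitePlace K → ℤ) 0 x =
      ((Algebra.norm ℚ x : ℚ) : ℂ) / ((|Algebra.norm ℚ x| : ℚ) : ℂ) := by
  classical
  have hmk : Function.Injective (InfinitePlace.mk : (K →+* ℂ) → InfinitePlace K) := by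
    intro φ φ' h
    rcases InfinitePlace.mk_eq_iff.1 h with h1 | h1
    · exact h1
    · have h2 : ComplexEmbedding.IsReal φ := by
        have := hreal (InfinitePlace.mk φ)
        rwa [InfinitePlace.isReal_mk_iff] at this
      rw [← h1]
      exact h2.symm
  have h1 : ∏ w : InfinitePlace K, w.embedding x = ((Algebra.norm ℚ x : ℚ) : ℂ) := by
    have h2 := Algebra.norm_eq_prod_embeddings ℚ ℂ x
    rw [eq_ratCast] at h2
    rw [h2]
    refine (Fintype.prod_equiv (Equiv.ofBijective (fun σ : K →ₐ[ℚ] ℂ => InfinitePlace.mk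
      (σ : K →+* ℂ)) ⟨?_, ?_⟩) _ _ ?_).symm
    · intro σ τ h
      exact AlgHom.coe_ringHom_injective (hmk h)
    · intro w
      refine ⟨(RingHom.equivRatAlgHom (R := K) (S := ℂ)) w.embedding, ?_⟩
      have h3 : (((RingHom.equivRatAlgHom (R := K) (S := ℂ)) w.embedding : K →ₐ[ℚ] ℂ) :
          K →+* ℂ) = w.embedding := RingHom.ext fun _ => rfl
      show InfinitePlace.mk _ = w
      rw [h3, InfinitePlace.mk_embedding w]
    · intro σ
      show σ x = (InfinitePlace.mk (σ : K →+* ℂ)).embedding x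
      have h3 : (InfinitePlace.mk (σ : K →+* ℂ)).embedding = (σ : K →+* ℂ) := by
        apply hmk
        rw [InfinitePlace.mk_embedding]
      rw [h3]
      rfl
  have h4 : ∏ w : InfinitePlace K, (w x : ℝ) = ((|Algebra.norm ℚ x| : ℚ) : ℝ) := by
    rw [← InfinitePlace.prod_eq_abs_norm]
    refine Finset.prod_congr rfl fun w _ => ?_
    have : w.mult = 1 := by
      unfold InfinitePlace.mult
      rw [if_pos (hreal w)]
    rw [this, pow_one]
  unfold infChar
  have h5 : ∀ w : InfinitePlace K, (w.embedding x / ((w x : ℝ) : ℂ)) ^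
      (1 : InfinitePlace K → ℤ) w * ((w x : ℝ) : ℂ) ^
        ((((0 : InfinitePlace K → ℝ) w : ℝ) : ℂ) * Complex.I) =
      w.embedding x / ((w x : ℝ) : ℂ) := by
    intro w
    rw [Pi.one_apply, zpow_one, Pi.zero_apply, Complex.ofReal_zero, zero_mul, Complex.cpow_zero,
      mul_one]
  rw [Finset.prod_congr rfl fun w _ => h5 w, Finset.prod_div_distrib, h1, ← Complex.ofReal_prod, h4,
    Complex.ofReal_ratCast]

lemma absNorm_span_norm (x : 𝓞 K) : absNorm (span {x}) = (Algebra.norm ℤ x).natAbs :=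
  absNorm_span_singleton x

/-- an odd Dirichlet character at the norm of a principal ideal -/
lemma odd_norm {M0 : ℕ} (ψ : DirichletCharacter ℂ M0) (hψ : ψ.Odd) {x : 𝓞 K} (hx0 : x ≠ 0)
    (hx : x - 1 ∈ span {(M0 : 𝓞 K)}) :
    ψ ((absNorm (span {x}) : ℕ) : ZMod M0) = if 0 < Algebra.norm ℤ x then 1 else -1 := by
  have h1 := norm_mod hx
  have hne : Algebra.norm ℤ x ≠ 0 := Algebra.norm_ne_zero_iff.2 hx0
  rw [absNorm_span_norm]
  split_ifs with h
  · have h2 : (((Algebra.norm ℤ x).natAbs : ℕ) : ZMod M0) = ((Algebra.norm ℤ x : ℤ) : ZMod M0) := by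
      rw [← Int.cast_natCast, Int.natAbs_of_nonneg h.le]
    rw [h2, h1, map_one]
  · have h2 : (((Algebra.norm ℤ x).natAbs : ℕ) : ZMod M0) = -1 := by
      have h3 : Algebra.norm ℤ x ≤ 0 := not_lt.1 h
      rw [← Int.cast_natCast, Int.ofNat_natAbs_of_nonpos h3]
      push_cast
      rw [h1]
    rw [h2]
    exact hψ

/-- the Hecke character attached to an odd Dirichlet character and the norm -/
noncomputable def normChar {M0 : ℕ} (hM0 : 1 < M0) (ψ : DirichletCharacter ℂ M0) (hψ : ψ.Odd)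
    (hreal : ∀ w : InfinitePlace K, w.IsReal) : HeckeChar K where
  cond := span {(M0 : 𝓞 K)}
  cond_ne := by
    rw [Ne, span_singleton_eq_bot]
    exact_mod_cast (by omega : M0 ≠ 0)
  toFun I := ψ ((absNorm I : ℕ) : ZMod M0)
  map_mul' I J := by
    rw [_root_.map_mul]
    push_cast
    rw [_root_.map_mul]
  norm_eq I hI h := by
    rw [sup_top_iff_coprime hI] at h
    have h2 := ψ.unit_norm_eq_one (ZMod.unitOfCoprime _ h)
    rwa [ZMod.coe_unitOfCoprime] at h2
  eq_zero I h := by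
    have : Fact (1 < M0) := ⟨hM0⟩
    refine ψ.map_nonunit fun hu => h ?_
    rcases eq_or_ne I ⊥ with hI | hI
    · exfalso
      rw [hI, absNorm_bot, Nat.cast_zero] at hu
      exact not_isUnit_zero hu
    · rw [sup_top_iff_coprime hI]
      rwa [ZMod.isUnit_iff_coprime] at hu
  n := 1
  t := 0
  principal x hx0 hx := by
    have hx0' : (x : K) ≠ 0 := by simpa using hx0
    rw [infChar_real hreal hx0', odd_norm ψ hψ hx0 hx]
    have h1 : Algebra.norm ℚ (x : K) = ((Algebra.norm ℤ x : ℤ) : ℚ) := by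
      exact (Algebra.coe_norm_int x).symm
    have hne : Algebra.norm ℤ x ≠ 0 := Algebra.norm_ne_zero_iff.2 hx0
    rw [h1]
    split_ifs with h
    · rw [abs_of_pos (by exact_mod_cast h), div_self]
      exact_mod_cast hne
    · have h2 : Algebra.norm ℤ x < 0 := lt_of_le_of_ne (not_lt.1 h) hne
      rw [abs_of_neg (by exact_mod_cast h2)]
      push_cast
      rw [div_neg, div_self]
      exact_mod_cast hne

end Pool.Agent.Mukai.RQ
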