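import Pool.Agent.Work.MP_1e087a_ag.Q.M2C

set_option autoImplicit false

/-!
Primes in classes with a condition on the norm: the general statement for a family of characters.
-/

namespace Pool.Agent.Mukai.RQ

open NumberField Ideal Filter Topology IsDedekindDomain
open Pool.Agent.Work.MP_2b9663_nt Pool.Agent.Work.MP_2b9663_nt.He

variable {K : Type} [Field K] [NumberField K]

lemma term_BK (ψ : HeckeChar K) (c : ℂ) : BK fun v => (c * ψ v.asIdeal).re := by
  refine ⟨‖c‖, fun v => (Complex.abs_re_le_norm _).trans ?_⟩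
  rw [norm_mul]
  exact mul_le_of_le_one_right (norm_nonneg _) (ψ.norm_le_one v.ne_bot)

lemma mean_sum {ι : Type} [Fintype ι] (χ : ι → HeckeChar K) (c : ι → ℂ) (κ : ι → ℝ)
    (h : ∀ i, Tendsto (MR fun v => (c i * χ i v.asIdeal).re) (𝓝[>] 0) (𝓝 (κ i))) :
    Tendsto (MR fun v => (∑ i, c i * χ i v.asIdeal).re) (𝓝[>] 0) (𝓝 (∑ i, κ i)) := by
  have h1 := tendsto_finsetSum Finset.univ fun i _ => h i
  refine h1.congr' ?_
  filter_upwards [eventually_unit] with ε hε
  rw [← MR_sum Finset.univ (fun i _ => term_BK (χ i) (c i)) hε.1]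
  congr 1
  funext v
  rw [Complex.re_sum]

/-- **Primes in classes with a condition on the norm.** -/
theorem exists_prime_family (hreal : ∀ w : InfinitePlace K, w.IsReal) {m M0 : ℕ} (hm : m ≠ 0)
    (hM0 : 1 < M0) (ψ : DirichletCharacter ℂ M0) (hψ : ψ.Odd) {x : 𝓞 K}
    (hx : x - 1 ∈ span {((m * M0 : ℕ) : 𝓞 K)}) (hneg : Algebra.norm ℤ x < 0)
    {ι : Type} [Fintype ι] (χ : ι → HeckeChar K) (c : ι → ℂ)
    (hχ : ∀ i, (χ i).cond = span {(m : 𝓞 K)} ∧ (χ i).n = 0 ∧ (χ i).t = 0)
    (hpos : ∀ i, ¬ (χ i).Nontriv → 0 < (c i).re) (hex : ∃ i, ¬ (χ i).Nontriv)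
    (P : Ideal (𝓞 K) → Prop)
    (hP : ∀ I : Ideal (𝓞 K), I ≠ ⊥ → I ⊔ span {(m : 𝓞 K)} = ⊤ → ¬ P I →
      ∑ i, c i * (χ i).toFun I = 0) (X : ℕ) :
    ∃ v : HeightOneSpectrum (𝓞 K), (absNorm v.asIdeal).Prime ∧ X < absNorm v.asIdeal ∧
      ((absNorm v.asIdeal : ℕ) : ZMod M0) ≠ 1 ∧ P v.asIdeal := by
  classical
  by_contra hno
  push Not at hno
  -- the values at the element of negative norm
  have hx0 : x ≠ 0 := by
    rintro rfl
    rw [Algebra.norm_zero] at hneg
    exact lt_irrefl _ hneg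
  have hxm : x - 1 ∈ span {(m : 𝓞 K)} := by
    refine span_singleton_le_span_singleton.2 ?_ hx
    push_cast
    exact dvd_mul_right _ _
  have hxM : x - 1 ∈ span {(M0 : 𝓞 K)} := by
    refine span_singleton_le_span_singleton.2 ?_ hx
    push_cast
    exact dvd_mul_left _ _
  let N : HeckeChar K := normChar hM0 ψ hψ hreal
  have hNx : N (span {x}) = -1 := by
    show ψ ((absNorm (span {x}) : ℕ) : ZMod M0) = -1
    rw [odd_norm ψ hψ hx0 hxM, if_neg (not_lt.2 hneg.le)]
  have hχx : ∀ i, χ i (span {x}) = 1 := by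
    intro i
    have h1 : χ i (span {x}) = _ := (χ i).principal x hx0 (by rw [(hχ i).1]; exact hxm)
    rw [h1, (hχ i).2.1, (hχ i).2.2]
    unfold infChar
    refine Finset.prod_eq_one fun w _ => ?_
    rw [Pi.zero_apply, zpow_zero, Pi.zero_apply, Complex.ofReal_zero, zero_mul, Complex.cpow_zero,
      mul_one]
  have hnt : ∀ i, ((χ i).mul N).Nontriv := by
    intro i
    refine ⟨span {x}, ?_, ?_, ?_⟩
    · rwa [Ne, span_singleton_eq_bot]
    · show span {x} ⊔ (χ i).cond * span {(M0 : 𝓞 K)} = ⊤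
      rw [(hχ i).1, span_singleton_mul_span_singleton]
      have h1 : span {(m : 𝓞 K) * (M0 : 𝓞 K)} = span {((m * M0 : ℕ) : 𝓞 K)} := by
        push_cast
        rfl
      rw [h1, eq_top_iff_one]
      have h2 : (1 : 𝓞 K) = x + (-(x - 1)) := by ring
      rw [h2]
      exact add_mem (mem_sup_left (mem_span_singleton_self _)) (mem_sup_right (neg_mem hx))
    · show χ i (span {x}) * N (span {x}) ≠ 1
      rw [hχx, hNx]
      norm_num
  -- the two mean values
  have hmean0 : Tendsto (MR fun v => (∑ i, c i * ((χ i).mul N) v.asIdeal).re) (𝓝[>] 0) (𝓝 0) := by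
    have h1 := mean_sum (fun i => (χ i).mul N) c (fun _ => 0) fun i => mean_mul _ (hnt i) (c i)
    rwa [Finset.sum_const_zero] at h1
  have hmean1 := mean_sum χ c (fun i => if (χ i).Nontriv then 0 else (c i).re) fun i => by
    split_ifs with h
    · exact mean_mul _ h (c i)
    · exact mean_triv _ h (c i)
  have hκ : 0 < ∑ i, (if (χ i).Nontriv then 0 else (c i).re) := by
    obtain ⟨i, hi⟩ := hex
    refine Finset.sum_pos' (fun j _ => ?_) ⟨i, Finset.mem_univ _, ?_⟩
    · split_ifs with h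
      · exact le_refl _
      · exact (hpos j h).le
    · rw [if_neg hi]
      exact hpos i hi
  -- the exceptional primes
  have hm' : (span {(m : 𝓞 K)} : Ideal (𝓞 K)) ≠ ⊥ := by
    rw [Ne, span_singleton_eq_bot]
    exact_mod_cast hm
  have hfin1 := finite_not_coprime K hm'
  have hfin2 : {v : HeightOneSpectrum (𝓞 K) | absNorm v.asIdeal ≤ X}.Finite :=
    Set.Finite.preimage (f := fun v : HeightOneSpectrum (𝓞 K) => v.asIdeal)
      (fun _ _ _ _ h => HeightOneSpectrum.ext h) (finite_setOfPred_absNorm_le X)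
  have hBK1 : BK fun v => (∑ i, c i * χ i v.asIdeal).re := by
    have := BK.sum Finset.univ fun i _ => term_BK (χ i) (c i)
    refine cast ?_ this
    congr 1
    funext v
    rw [Complex.re_sum]
  have hBK2 : BK fun v => (∑ i, c i * ((χ i).mul N) v.asIdeal).re := by
    have := BK.sum Finset.univ fun i _ => term_BK ((χ i).mul N) (c i)
    refine cast ?_ this
    congr 1
    funext v
    rw [Complex.re_sum]
  have hlim := MR_congr_prime hBK1 hBK2 (hfin1.union hfin2).toFinset (fun v hv hvp => ?_) hmean1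
  · have := tendsto_nhds_unique hlim hmean0
    rw [this] at hκ
    exact lt_irrefl _ hκ
  · rw [Set.Finite.mem_toFinset, Set.mem_union, not_or] at hv
    have hv1 : v.asIdeal ⊔ span {(m : 𝓞 K)} = ⊤ := by
      by_contra h
      exact hv.1 h
    have hv2 : X < absNorm v.asIdeal := by
      by_contra h
      exact hv.2 (not_lt.1 h)
    have h3 : ∑ i, c i * ((χ i).mul N) v.asIdeal = (∑ i, c i * χ i v.asIdeal) * N v.asIdeal := by
      rw [Finset.sum_mul]
      refine Finset.sum_congr rfl fun i _ => ?_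
      show c i * (χ i v.asIdeal * N v.asIdeal) = _
      ring
    rw [h3]
    by_cases hN : ((absNorm v.asIdeal : ℕ) : ZMod M0) = 1
    · have h4 : N v.asIdeal = 1 := by
        show ψ ((absNorm v.asIdeal : ℕ) : ZMod M0) = 1
        rw [hN, map_one]
      rw [h4, mul_one]
    · have h5 := hP v.asIdeal v.ne_bot hv1 (hno v hvp hv2 hN)
      have h6 : ∑ i, c i * χ i v.asIdeal = 0 := h5
      rw [h6, zero_mul]

end Pool.Agent.Mukai.RQ
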