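import Pool.Agent.Work.MP_1e087a_ag.Q.Link

set_option autoImplicit false

/-!
The real quadratic field of a binary form of positive nonsquare discriminant.
-/

namespace Pool.Agent.Mukai.RQ

open NumberField Ideal

set_option linter.unusedSectionVars false

/-- the quadratic field `ℚ[x] / (x² - B x + n C)` -/
abbrev QK (n B C : ℤ) : Type := QuadraticAlgebra ℚ (-(n * C : ℤ) : ℚ) (B : ℚ)

variable {n B C : ℤ}

/-- the discriminant is not a square -/
lemma fact_of (h : ¬ IsSquare (B ^ 2 - 4 * n * C)) :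
    ∀ r : ℚ, r ^ 2 ≠ (-(n * C : ℤ) : ℚ) + (B : ℚ) * r := by
  intro r hr
  apply h
  have h1 : IsSquare (((B ^ 2 - 4 * n * C : ℤ)) : ℚ) := by
    refine ⟨2 * r - B, ?_⟩
    push_cast at hr ⊢
    linear_combination (-4) * hr
  exact Rat.isSquare_intCast_iff.1 h1

variable [Fact (∀ r : ℚ, r ^ 2 ≠ (-(n * C : ℤ) : ℚ) + (B : ℚ) * r)]

instance : NumberField (QK n B C) where
  to_charZero := inferInstance
  to_finiteDimensional := inferInstance

/-- the norm -/
lemma norm_eq (z : QK n B C) : Algebra.norm ℚ z = QuadraticAlgebra.norm z := by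
  rw [← QuadraticAlgebra.det_toLinearMap_eq_norm, Algebra.norm_apply]
  rfl

variable (n B C)

/-- the root as an element of the field -/
def om : QK n B C := ⟨0, 1⟩

lemma om_sq : om n B C * om n B C = (B : QK n B C) * om n B C - (n : QK n B C) * (C : QK n B C) := by
  ext <;> simp [om]

lemma om_int : IsIntegral ℤ (om n B C) := by
  refine ⟨Polynomial.X ^ 2 - Polynomial.C B * Polynomial.X + Polynomial.C (n * C), ?_, ?_⟩
  · monicity!
  · simp only [algebraMap_int_eq, Polynomial.eval₂_add, Polynomial.eval₂_sub,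
      Polynomial.eval₂_pow, Polynomial.eval₂_X, Polynomial.eval₂_mul, Polynomial.eval₂_C]
    simp only [eq_intCast, Int.cast_mul]
    rw [pow_two, om_sq]
    ring

/-- the root as an integer -/
noncomputable def omI : 𝓞 (QK n B C) := ⟨om n B C, om_int n B C⟩

lemma omI_coe : algebraMap (𝓞 (QK n B C)) (QK n B C) (omI n B C) = om n B C := rfl

variable {n B C}

lemma star_int {z : QK n B C} (hz : IsIntegral ℤ z) : IsIntegral ℤ (star z) := by
  have h := hz.map (starRingEnd (QK n B C)).toIntAlgHom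
  exact h

/-- an integral rational element is an integer -/
lemma int_of {r : ℚ} (h : IsIntegral ℤ (algebraMap ℚ (QK n B C) r)) : ∃ a : ℤ, (a : ℚ) = r := by
  have h1 : IsIntegral ℤ r :=
    (isIntegral_algebraMap_iff (FaithfulSMul.algebraMap_injective ℚ (QK n B C))).1 h
  obtain ⟨a, ha⟩ := IsIntegrallyClosed.isIntegral_iff.1 h1
  exact ⟨a, by simpa using ha⟩

lemma int_one {z : QK n B C} (hz : IsIntegral ℤ z) : ∃ a : ℤ, (a : ℚ) = 2 * z.re + B * z.im := by
  apply int_of (n := n) (B := B) (C := C)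
  have h1 : algebraMap ℚ (QK n B C) (2 * z.re + B * z.im) = z + star z :=
    QuadraticAlgebra.algebraMap_trace_eq_add_star z
  rw [h1]
  exact hz.add (star_int hz)

lemma int_two {z : QK n B C} (hz : IsIntegral ℤ z) :
    ∃ a : ℤ, (a : ℚ) = (B ^ 2 - 4 * n * C) * z.im := by
  apply int_of (n := n) (B := B) (C := C)
  have h1 : algebraMap ℚ (QK n B C) ((B ^ 2 - 4 * n * C) * z.im) =
      (z - star z) * (om n B C - star (om n B C)) := by
    change (⟨(B ^ 2 - 4 * n * C) * z.im, 0⟩ : QK n B C) = _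
    ext
    · simp [om]
      ring
    · simp [om]
      ring
  rw [h1]
  exact (hz.sub (star_int hz)).mul ((om_int n B C).sub (star_int (om_int n B C)))

/-- the modulus -/
def md (n B C : ℤ) : ℕ := (2 * n * (B ^ 2 - 4 * n * C)).natAbs

/-- the quadratic data -/
noncomputable def qd : QD (QK n B C) n B C (md n B C) where
  ω := omI n B C
  sq := by
    apply RingOfIntegers.ext
    simp only [map_mul, map_sub, map_intCast, omI_coe]
    exact om_sq n B C
  norm := by
    intro x y
    have h1 : ((Algebra.norm ℤ ((x : 𝓞 (QK n B C)) + y * omI n B C) : ℤ) : ℚ) =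
        x ^ 2 + B * x * y + n * C * y ^ 2 := by
      rw [Algebra.coe_norm_int, norm_eq, QuadraticAlgebra.norm_def]
      simp only [map_mul, map_add, map_intCast, omI_coe]
      simp [om]
      ring
    exact_mod_cast h1
  dvd := by
    intro z
    obtain ⟨a, ha⟩ := int_one z.isIntegral_coe
    obtain ⟨b, hb⟩ := int_two z.isIntegral_coe
    obtain ⟨e, he⟩ : ∃ e : ℤ, (md n B C : ℤ) = e * (2 * n * (B ^ 2 - 4 * n * C)) := by
      unfold md
      rcases Int.natAbs_eq (2 * n * (B ^ 2 - 4 * n * C)) with h | h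
      · exact ⟨1, by rw [← h]; ring⟩
      · exact ⟨-1, by linarith⟩
    refine ⟨e * ((B ^ 2 - 4 * n * C) * a - B * b), e * (2 * n * b), ?_⟩
    have he' : ((md n B C : ℕ) : 𝓞 (QK n B C)) = ((e * (2 * n * (B ^ 2 - 4 * n * C)) : ℤ) :
        𝓞 (QK n B C)) := by
      rw [← he]
      simp
    rw [he']
    apply RingOfIntegers.ext
    simp only [map_mul, map_add, map_intCast, omI_coe]
    generalize algebraMap (𝓞 (QK n B C)) (QK n B C) z = z' at ha hb
    obtain ⟨E, hE⟩ : ∃ E : ℤ, E = e * (2 * n * (B ^ 2 - 4 * n * C)) := ⟨_, rfl⟩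
    obtain ⟨U, hU⟩ : ∃ U : ℤ, U = e * ((B ^ 2 - 4 * n * C) * a - B * b) := ⟨_, rfl⟩
    obtain ⟨V, hV⟩ : ∃ V : ℤ, V = e * (2 * n * b) := ⟨_, rfl⟩
    rw [← hE, ← hU, ← hV]
    have hE' : (E : ℚ) = e * (2 * n * (B ^ 2 - 4 * n * C)) := by rw [hE]; push_cast; ring
    have hU' : (U : ℚ) = e * ((B ^ 2 - 4 * n * C) * a - B * b) := by rw [hU]; push_cast; ring
    have hV' : (V : ℚ) = e * (2 * n * b) := by rw [hV]; push_cast; ring
    ext
    · simp [om]
      linear_combination z'.re * hE' - (n : ℚ) * hU' -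
        ((e : ℚ) * n * (B ^ 2 - 4 * n * C)) * ha + ((e : ℚ) * n * B) * hb
    · simp [om]
      linear_combination z'.im * hE' - hV' - (2 * (e : ℚ) * n) * hb

lemma md_dvd : (n : ℤ) ∣ (md n B C : ℤ) := by
  unfold md
  rw [Int.dvd_natAbs]
  exact ⟨2 * (B ^ 2 - 4 * n * C), by ring⟩

/-- an element of negative norm, congruent to `1` -/
lemma exists_neg (hΔ : 0 < B ^ 2 - 4 * n * C) (T : ℕ) (hT : T ≠ 0) :
    ∃ x : 𝓞 (QK n B C), x - 1 ∈ span {(T : 𝓞 (QK n B C))} ∧ Algebra.norm ℤ x < 0 := by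
  have hΔ1 : B ^ 2 - 4 * n * C ≠ 1 := by
    intro h
    have hf := (inferInstance : Fact (∀ r : ℚ, r ^ 2 ≠ (-(n * C : ℤ) : ℚ) + (B : ℚ) * r)).out
    apply hf ((B + 1) / 2)
    have h2 : ((B ^ 2 - 4 * n * C : ℤ) : ℚ) = 1 := by exact_mod_cast h
    push_cast at h2 ⊢
    linear_combination (-1 / 4 : ℚ) * h2
  refine ⟨((1 - T * B : ℤ) : 𝓞 (QK n B C)) + ((2 * T : ℤ) : 𝓞 (QK n B C)) * omI n B C, ?_, ?_⟩
  · rw [mem_span_singleton]
    refine ⟨2 * omI n B C - B, ?_⟩
    push_cast
    ring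
  · have h := (qd (n := n) (B := B) (C := C)).norm (1 - T * B) (2 * T)
    change Algebra.norm ℤ (_ + _ * omI n B C) = _ at h
    rw [h]
    have h1 : (1 : ℤ) ≤ (T : ℤ) := by exact_mod_cast Nat.pos_of_ne_zero hT
    have h2 : 2 ≤ B ^ 2 - 4 * n * C := by omega
    nlinarith [mul_self_nonneg ((T : ℤ) - 1), mul_le_mul h2 (one_le_pow₀ h1 (n := 2))
      (by norm_num) (by linarith)]

/-- all infinite places are real -/
lemma real_places (hΔ : 0 < B ^ 2 - 4 * n * C) (w : InfinitePlace (QK n B C)) : w.IsReal := by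
  rw [InfinitePlace.isReal_iff]
  rw [ComplexEmbedding.isReal_iff]
  set φ := w.embedding with hφ
  have hq : ∀ r : ℚ, φ (⟨r, 0⟩ : QK n B C) = r := fun r => by
    have : (⟨r, 0⟩ : QK n B C) = ((r : ℚ) : QK n B C) := rfl
    rw [this, map_ratCast]
  have hom : (starRingEnd ℂ) (φ (om n B C)) = φ (om n B C) := by
    have h1 := congrArg φ (om_sq n B C)
    rw [map_mul, map_sub, map_mul, map_mul, map_intCast, map_intCast, map_intCast] at h1
    generalize φ (om n B C) = z at h1
    have h2 : (2 * z - B) ^ 2 = ((B ^ 2 - 4 * n * C : ℤ) : ℂ) := by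
      push_cast
      linear_combination 4 * h1
    rw [Complex.conj_eq_iff_im]
    have hre := congrArg Complex.re h2
    have him := congrArg Complex.im h2
    rw [pow_two, Complex.mul_re, Complex.intCast_re] at hre
    rw [pow_two, Complex.mul_im, Complex.intCast_im] at him
    have e1 : (2 * z - B : ℂ).im = 2 * z.im := by simp
    rw [e1] at hre him
    have h3 : (0 : ℝ) < ((B ^ 2 - 4 * n * C : ℤ) : ℝ) := by exact_mod_cast hΔ
    rw [← hre] at h3
    generalize (2 * z - B : ℂ).re = y at h3 him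
    by_contra hz
    have hy : y = 0 := by
      have h4 : (4 * z.im) * y = 0 := by linarith
      rcases mul_eq_zero.1 h4 with h5 | h5
      · exact absurd (by linarith) hz
      · exact h5
    rw [hy] at h3
    nlinarith [mul_self_nonneg z.im]
  ext z
  have hz : z = (⟨z.re, 0⟩ : QK n B C) + (⟨z.im, 0⟩ : QK n B C) * om n B C := by
    ext <;> simp [om]
  rw [ComplexEmbedding.conjugate_coe_eq, hz, map_add, map_mul, hq, hq, map_add, map_mul, hom]
  simp

end Pool.Agent.Mukai.RQ
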